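import Mathlib.Combinatorics.Hall.Basic
import Mathlib.Combinatorics.SimpleGraph.Acyclic
import Pool.Agent.Helper120.Ea.Model

open Finset

namespace Pool.Agent.V5helper67.EA

open Pool.Agent.Helper120.EaModel

variable {V E : Type} (G : WGraph V E)

theorem sg_adj {x : Finset E} {u v : V} :
    (G.subgraph x).Adj u v ↔ ∃ e ∈ x, G.ends e = s(u, v) := by
  unfold WGraph.subgraph
  rw [SimpleGraph.fromEdgeSet_adj]
  constructor
  · rintro ⟨⟨e, he, h⟩, _⟩
    exact ⟨e, he, h⟩
  · rintro ⟨e, he, h⟩
    refine ⟨⟨e, he, h⟩, ?_⟩
    intro huv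
    apply G.no_loop e
    rw [h, huv]
    exact Sym2.diag_isDiag v

theorem sg_mono {x y : Finset E} (h : x ⊆ y) : G.subgraph x ≤ G.subgraph y := by
  intro u v huv
  rw [sg_adj] at huv ⊢
  obtain ⟨e, he, h'⟩ := huv
  exact ⟨e, h he, h'⟩

theorem sg_edgeSet (x : Finset E) : (G.subgraph x).edgeSet = G.ends '' (x : Set E) := by
  unfold WGraph.subgraph
  rw [SimpleGraph.edgeSet_fromEdgeSet]
  ext e
  simp only [Set.mem_diff, Set.mem_image, SetLike.mem_coe]
  constructor
  · exact fun h => h.1
  · rintro ⟨a, ha, rfl⟩
    exact ⟨⟨a, ha, rfl⟩, fun h => G.no_loop a h⟩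

theorem sg_card (x : Finset E) : Nat.card (G.subgraph x).edgeSet = x.card := by
  rw [sg_edgeSet, Nat.card_image_of_injective G.ends_injective]
  simp

variable [Finite V]

theorem tree_iff {x : Finset E} :
    G.IsSpanningTree x ↔ (G.subgraph x).Connected ∧ x.card + 1 = Nat.card V := by
  unfold WGraph.IsSpanningTree
  rw [SimpleGraph.isTree_iff_connected_and_card, sg_card]

omit [Finite V] in
theorem conn_card {x : Finset E} (h : (G.subgraph x).Connected) : Nat.card V ≤ x.card + 1 := by
  rw [← sg_card G x]
  exact h.card_vert_le_card_edgeSet_add_one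

variable {G}

theorem tree_card {x y : Finset E} (hx : G.IsSpanningTree x) (hy : G.IsSpanningTree y) :
    x.card = y.card := by
  rw [tree_iff] at hx hy
  omega

omit [Finite V]

/-- reachability is inherited when all edges have reachable ends -/
theorem reach_of {A B : Finset E}
    (h : ∀ e ∈ A, ∀ u v, G.ends e = s(u, v) → (G.subgraph B).Reachable u v) {u v : V}
    (huv : (G.subgraph A).Reachable u v) : (G.subgraph B).Reachable u v := by
  obtain ⟨w⟩ := huv
  induction w with
  | nil => exact SimpleGraph.Reachable.refl _
  | cons hadj _ ih =>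
    rw [sg_adj] at hadj
    obtain ⟨e, he, he'⟩ := hadj
    exact (h e he _ _ he').trans ih

theorem reach_of_mem {B : Finset E} {e : E} (he : e ∈ B) {u v : V} (h : G.ends e = s(u, v)) :
    (G.subgraph B).Reachable u v := by
  apply SimpleGraph.Adj.reachable
  rw [sg_adj]
  exact ⟨e, he, h⟩

variable [DecidableEq E]

/-- reachability after adding one edge -/
theorem reach_insert {A : Finset E} {a : E} {p q : V} (ha : G.ends a = s(p, q)) {u v : V}
    (huv : (G.subgraph (insert a A)).Reachable u v) :
    (G.subgraph A).Reachable u v ∨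
      ((G.subgraph A).Reachable u p ∧ (G.subgraph A).Reachable q v) ∨
      ((G.subgraph A).Reachable u q ∧ (G.subgraph A).Reachable p v) := by
  obtain ⟨w⟩ := huv
  induction w with
  | nil => exact Or.inl (SimpleGraph.Reachable.refl _)
  | @cons u u' v hadj _ ih =>
    rw [sg_adj] at hadj
    obtain ⟨e, he, he'⟩ := hadj
    rw [mem_insert] at he
    rcases he with he | he
    · rw [he, ha, Sym2.eq_iff] at he'
      rcases he' with ⟨h1, h2⟩ | ⟨h1, h2⟩
      · subst h1; subst h2
        rcases ih with ih | ih | ih
        · exact Or.inr (Or.inl ⟨SimpleGraph.Reachable.refl _, ih⟩)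
        · exact Or.inr (Or.inl ⟨SimpleGraph.Reachable.refl _, ih.2⟩)
        · exact Or.inl ih.2
      · subst h1; subst h2
        rcases ih with ih | ih | ih
        · exact Or.inr (Or.inr ⟨SimpleGraph.Reachable.refl _, ih⟩)
        · exact Or.inl ih.2
        · exact Or.inr (Or.inr ⟨SimpleGraph.Reachable.refl _, ih.2⟩)
    · have h1 := reach_of_mem he he'
      rcases ih with ih | ih | ih
      · exact Or.inl (h1.trans ih)
      · exact Or.inr (Or.inl ⟨h1.trans ih.1, ih.2⟩)
      · exact Or.inr (Or.inr ⟨h1.trans ih.1, ih.2⟩)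

variable [Finite V]

theorem swap_tree {x : Finset E} (hx : G.IsSpanningTree x) {a f : E} (ha : a ∈ x) (hf : f ∉ x)
    (h : ∀ p q, G.ends a = s(p, q) →
      (G.subgraph (insert f (x.erase a))).Reachable p q) :
    G.IsSpanningTree (insert f (x.erase a)) := by
  rw [tree_iff] at hx ⊢
  obtain ⟨h1, h2⟩ := hx
  constructor
  · have := h1.nonempty
    constructor
    intro u v
    refine reach_of (A := x) ?_ (h1.preconnected u v)
    intro e he u v huv
    by_cases hea : e = a
    · subst hea
      exact h u v huv
    · exact reach_of_mem (mem_insert_of_mem (mem_erase.2 ⟨hea, he⟩)) huv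
  · rw [card_insert_of_notMem (fun h => hf (mem_of_mem_erase h)), card_erase_of_mem ha]
    have : 0 < x.card := card_pos.2 ⟨a, ha⟩
    omega

/-- the edges of a spanning tree that can be exchanged for `f` connect the ends of `f` -/
theorem fund_reach {x : Finset E} (hx : G.IsSpanningTree x) {f : E} (hf : f ∉ x) {B : Finset E}
    (hB : ∀ a ∈ x, G.IsSpanningTree (insert f (x.erase a)) → a ∈ B) {u v : V}
    (huv : G.ends f = s(u, v)) : (G.subgraph B).Reachable u v := by
  classical
  have hx' := hx
  rw [tree_iff] at hx'
  obtain ⟨A, hA, hAmin⟩ := Finset.exists_min_image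
    (x.powerset.filter fun A => (G.subgraph A).Reachable u v) card
    ⟨x, by rw [mem_filter, mem_powerset]; exact ⟨subset_rfl, hx'.1.preconnected u v⟩⟩
  rw [mem_filter, mem_powerset] at hA
  refine SimpleGraph.Reachable.mono (sg_mono G ?_) hA.2
  intro a haA
  have hax := hA.1 haA
  apply hB a hax
  apply swap_tree hx hax hf
  intro p q hpq
  have h1 : ¬ (G.subgraph (A.erase a)).Reachable u v := by
    intro hcon
    have := hAmin (A.erase a) (by
      rw [mem_filter, mem_powerset]
      exact ⟨(erase_subset _ _).trans hA.1, hcon⟩)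
    have h2 := card_erase_lt_of_mem haA
    omega
  have h2 : (G.subgraph (insert a (A.erase a))).Reachable u v := by
    rw [insert_erase haA]; exact hA.2
  have hsub : G.subgraph (A.erase a) ≤ G.subgraph (insert f (x.erase a)) :=
    sg_mono G ((erase_subset_erase a hA.1).trans (subset_insert _ _))
  have hfr : (G.subgraph (insert f (x.erase a))).Reachable u v :=
    reach_of_mem (mem_insert_self _ _) huv
  rcases reach_insert hpq h2 with h3 | h3 | h3
  · exact absurd h3 h1
  · exact ((h3.1.mono hsub).symm.trans hfr).trans (h3.2.mono hsub).symm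
  · exact ((h3.2.mono hsub).trans hfr.symm).trans (h3.1.mono hsub)

/-- extension of a subset of a spanning tree by edges of another spanning tree -/
theorem extend_tree {x y I : Finset E} (hx : G.IsSpanningTree x) (hy : G.IsSpanningTree y)
    (hI : I ⊆ y) : ∃ T, I ⊆ T ∧ T ⊆ I ∪ x ∧ G.IsSpanningTree T := by
  classical
  have hxc : (G.subgraph x).Connected := hx.connected
  have hIc : (G.subgraph I).IsAcyclic := hy.isAcyclic.anti (sg_mono G hI)
  have hc : (G.subgraph (I ∪ x)).Connected := hxc.mono (sg_mono G subset_union_right)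
  obtain ⟨F, hF1, hF2, hF3⟩ := hc.exists_isTree_le_of_le_of_isAcyclic
    (sg_mono G (subset_union_left (s₁ := I) (s₂ := x))) hIc
  refine ⟨(I ∪ x).filter fun e => G.ends e ∈ F.edgeSet, ?_, filter_subset _ _, ?_⟩
  · intro e he
    rw [mem_filter]
    refine ⟨mem_union_left _ he, ?_⟩
    obtain ⟨u, v, huv⟩ : ∃ u v, G.ends e = s(u, v) := by
      induction h : G.ends e with | _ u v => exact ⟨u, v, rfl⟩
    rw [huv]
    apply hF1
    rw [sg_adj]
    exact ⟨e, he, huv⟩
  · have : G.subgraph ((I ∪ x).filter fun e => G.ends e ∈ F.edgeSet) = F := by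
      ext u v
      rw [sg_adj]
      constructor
      · rintro ⟨e, he, huv⟩
        rw [mem_filter] at he
        rw [huv] at he
        exact he.2
      · intro h
        have h2 := hF2 h
        rw [sg_adj] at h2
        obtain ⟨e, he, huv⟩ := h2
        refine ⟨e, ?_, huv⟩
        rw [mem_filter, huv]
        exact ⟨he, h⟩
    show (G.subgraph _).IsTree
    rw [this]
    exact hF3

/-- **Bijective exchange for spanning trees.** -/
theorem bij_exchange {x y : Finset E} (hx : G.IsSpanningTree x) (hy : G.IsSpanningTree y) :
    ∃ σ : E → E, (∀ f ∈ y \ x, σ f ∈ x \ y ∧ G.IsSpanningTree (insert f (x.erase (σ f)))) ∧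
      Set.InjOn σ (y \ x : Finset E) ∧ (y \ x).image σ = x \ y := by
  classical
  set t : {f // f ∈ y \ x} → Finset E := fun f =>
    (x \ y).filter fun a => G.IsSpanningTree (insert f.1 (x.erase a)) with ht
  have hall : ∀ s : Finset {f // f ∈ y \ x}, s.card ≤ (s.biUnion t).card := by
    intro s
    set S : Finset E := s.image Subtype.val with hS
    have hScard : S.card = s.card := card_image_of_injective _ Subtype.val_injective
    set N := s.biUnion t with hN
    have hNx : N ⊆ x \ y := by
      intro a ha
      rw [hN, mem_biUnion] at ha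
      obtain ⟨f, _, hf⟩ := ha
      rw [ht] at hf
      exact (mem_filter.1 hf).1
    have hSy : S ⊆ y \ x := by
      intro f hf
      rw [hS, mem_image] at hf
      obtain ⟨f', _, rfl⟩ := hf
      exact f'.2
    obtain ⟨T, hT1, hT2, hT3⟩ := extend_tree (I := (x ∩ y) ∪ S) hx hy (by
      intro e he
      rw [mem_union, mem_inter] at he
      rcases he with he | he
      · exact he.2
      · exact (mem_sdiff.1 (hSy he)).1)
    -- the set `R` of other edges of `T`
    set R := T \ ((x ∩ y) ∪ S) with hR
    have hRx : R ⊆ x := by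
      intro e he
      rw [hR, mem_sdiff] at he
      have := hT2 he.1
      rw [mem_union] at this
      rcases this with h | h
      · exact absurd h he.2
      · exact h
    have hTc : T.card = R.card + ((x ∩ y) ∪ S).card := by
      rw [hR, card_sdiff_of_subset hT1]
      have := card_le_card hT1
      omega
    have hdisj : Disjoint (x ∩ y) S := by
      rw [disjoint_left]
      intro e h1 h2
      exact (mem_sdiff.1 (hSy h2)).2 (mem_inter.1 h1).1
    rw [card_union_of_disjoint hdisj] at hTc
    have hconn : (G.subgraph (R ∪ ((x ∩ y) ∪ N))).Connected := by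
      have hTconn : (G.subgraph T).Connected := hT3.connected
      have := hTconn.nonempty
      constructor
      intro u v
      refine reach_of (A := T) ?_ (hTconn.preconnected u v)
      intro e he u v huv
      by_cases h1 : e ∈ R
      · exact reach_of_mem (mem_union_left _ h1) huv
      · have h2 : e ∈ (x ∩ y) ∪ S := by
          by_contra h3
          exact h1 (mem_sdiff.2 ⟨he, h3⟩)
        rw [mem_union] at h2
        rcases h2 with h2 | h2
        · exact reach_of_mem (mem_union_right _ (mem_union_left _ h2)) huv
        · have h3 := hSy h2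
          rw [hS, mem_image] at h2
          obtain ⟨f, hf, rfl⟩ := h2
          refine fund_reach hx (mem_sdiff.1 h3).2 ?_ huv
          intro a ha hsw
          rw [mem_union, mem_union]
          right
          by_cases hay : a ∈ y
          · left; exact mem_inter.2 ⟨ha, hay⟩
          · right
            rw [hN, mem_biUnion]
            exact ⟨f, hf, mem_filter.2 ⟨mem_sdiff.2 ⟨ha, hay⟩, hsw⟩⟩
    have h1 := conn_card G hconn
    have h2 := tree_card hx hT3
    have h3 := (tree_iff G).1 hx
    have h4 : (R ∪ ((x ∩ y) ∪ N)).card ≤ R.card + ((x ∩ y).card + N.card) :=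
      (card_union_le _ _).trans (Nat.add_le_add_left (card_union_le _ _) _)
    omega
  obtain ⟨τ, hτ1, hτ2⟩ := (Finset.all_card_le_biUnion_card_iff_exists_injective t).1 hall
  refine ⟨fun f => if h : f ∈ y \ x then τ ⟨f, h⟩ else f, ?_, ?_, ?_⟩
  · intro f hf
    simp only [hf, dif_pos]
    have := hτ2 ⟨f, hf⟩
    rw [ht] at this
    exact ⟨(mem_filter.1 this).1, (mem_filter.1 this).2⟩
  · intro f hf f' hf' h
    rw [mem_coe] at hf hf'
    simp only [hf, hf', dif_pos] at h
    have := hτ1 h
    simpa using this
  · apply eq_of_subset_of_card_le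
    · intro a ha
      rw [mem_image] at ha
      obtain ⟨f, hf, rfl⟩ := ha
      simp only [hf, dif_pos]
      have := hτ2 ⟨f, hf⟩
      rw [ht] at this
      exact (mem_filter.1 this).1
    · rw [card_image_of_injOn]
      · have h1 := tree_card hx hy
        have h2 := card_sdiff_add_card_inter x y
        have h3 := card_sdiff_add_card_inter y x
        rw [inter_comm y x] at h3
        omega
      · intro f hf f' hf' h
        rw [mem_coe] at hf hf'
        simp only [hf, hf', dif_pos] at h
        have := hτ1 h
        simpa using this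

end Pool.Agent.V5helper67.EA
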