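import Pool.Agent.Helper120.Ea.Drift
import Pool.Agent.Helper120.Ea.Model

open MeasureTheory ProbabilityTheory Finset
open scoped ENNReal

namespace Pool.Agent.V5helper67.EA

open Pool.Agent.Helper120.EaModel Pool.Agent.Helper120.EaJ4

variable {E : Type} [Fintype E] [DecidableEq E]

/-- Additive drift upper bound. -/
theorem drift_upper {Ω : Type} [MeasurableSpace Ω] (P : Measure Ω) [IsProbabilityMeasure P]
    (Z : ℕ × E → Ω → Bool) (hZ : ∀ i, Measurable (Z i)) (hind : iIndepFun Z P)
    (hcard : 2 ≤ Fintype.card E)
    (hp : ∀ i, P {ω | Z i ω = true} = ENNReal.ofReal (1 / (Fintype.card E : ℝ)))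
    (nxt : Finset E → Finset E → Finset E) (opt S : Finset E → Prop) (V : Finset E → ℝ)
    (x0 : Finset E) (hS0 : S x0) (hSn : ∀ x y, S x → S (nxt x y))
    (hV0 : ∀ x, S x → 0 ≤ V x)
    (habs : ∀ x, S x → opt x →
      ∑ F : Finset E, flipProb F * V (nxt x (symmDiff x F)) ≤ V x)
    (hdrift : ∀ x, S x → ¬ opt x →
      ∑ F : Finset E, flipProb F * V (nxt x (symmDiff x F)) ≤ V x - 1) :
    ∫⁻ ω, hitTime opt (traj nxt Z x0) ω ∂P ≤ ENNReal.ofReal (V x0) := by
  classical
  set p : ℕ → Finset E → ℝ := fun t x => P.real {ω | traj nxt Z x0 t ω = x} with hpdef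
  have hp0 : ∀ t x, 0 ≤ p t x := fun t x => measureReal_nonneg
  set a : ℕ → ℝ := fun t => ∑ x, p t x * V x with ha
  set s : ℕ → ℝ := fun t => ∑ x, p t x * (if opt x then 0 else 1) with hs
  have hSt : ∀ t ω, S (traj nxt Z x0 t ω) := by
    intro t ω
    induction t with
    | zero => exact hS0
    | succ t ih => exact hSn _ _ ih
  have hpS : ∀ t x, ¬ S x → p t x = 0 := by
    intro t x hx
    have : {ω | traj nxt Z x0 t ω = x} = ∅ := by
      ext ω
      simp only [Set.mem_ofPred_eq, Set.mem_empty_iff_false, iff_false]
      intro h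
      exact hx (h ▸ hSt t ω)
    simp only [hpdef, this, measureReal_empty]
  have hstep : ∀ t, a (t + 1) ≤ a t - s t := by
    intro t
    have h1 : a (t + 1) = ∑ x, p t x * ∑ F, flipProb F * V (nxt x (symmDiff x F)) :=
      step_sum P Z hZ hind hcard hp nxt x0 t V
    rw [h1]
    simp only [ha, hs, ← Finset.sum_sub_distrib]
    refine Finset.sum_le_sum (fun x _ => ?_)
    rw [← mul_sub]
    by_cases hSx : S x
    · refine mul_le_mul_of_nonneg_left ?_ (hp0 t x)
      by_cases hox : opt x
      · simp only [hox, if_true, sub_zero]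
        exact habs x hSx hox
      · simp only [hox, if_false]
        exact hdrift x hSx hox
    · rw [hpS t x hSx]; simp
  have han : ∀ t, 0 ≤ a t := by
    intro t
    refine Finset.sum_nonneg fun x _ => ?_
    by_cases hSx : S x
    · exact mul_nonneg (hp0 t x) (hV0 x hSx)
    · rw [hpS t x hSx]; simp
  have hsum : ∀ N, ∑ t ∈ range N, s t ≤ a 0 - a N := by
    intro N
    induction N with
    | zero => simp
    | succ N ih =>
      rw [Finset.sum_range_succ]
      have := hstep N
      linarith
  have ha0 : a 0 = V x0 := by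
    have h0 : ∀ x, p 0 x = if x = x0 then 1 else 0 := by
      intro x
      by_cases hx : x = x0
      · subst hx
        simp [hpdef, traj]
      · have : {ω : Ω | traj nxt Z x0 0 ω = x} = ∅ := by
          ext ω
          simp only [Set.mem_ofPred_eq, Set.mem_empty_iff_false, iff_false, traj]
          exact fun h => hx h.symm
        simp only [hpdef, this, measureReal_empty, hx, if_false]
    simp only [ha, h0, ite_mul, one_mul, zero_mul, Finset.sum_ite_eq', Finset.mem_univ, if_true]
  have hs0 : ∀ t, 0 ≤ s t := fun t =>
    Finset.sum_nonneg (fun x _ => mul_nonneg (hp0 t x) (by split_ifs <;> norm_num))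
  have hset : ∀ t, {ω | ¬ opt (traj nxt Z x0 t ω)} =
      ⋃ x ∈ (Finset.univ : Finset (Finset E)).filter (fun x => ¬ opt x),
        {ω | traj nxt Z x0 t ω = x} := by
    intro t
    ext ω
    simp
  have hmeasN : ∀ t, MeasurableSet {ω | ¬ opt (traj nxt Z x0 t ω)} := by
    intro t
    rw [hset t]
    exact Finset.measurableSet_biUnion _ (fun x _ => measSet_traj Z hZ nxt x0 t x)
  have hsP : ∀ t, P {ω | ¬ opt (traj nxt Z x0 t ω)} = ENNReal.ofReal (s t) := by
    intro t
    have h1 : P.real {ω | ¬ opt (traj nxt Z x0 t ω)} = s t := by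
      rw [hset t, measureReal_biUnion_finset]
      · simp only [hs, mul_ite, mul_zero, mul_one]
        rw [Finset.sum_filter]
        refine Finset.sum_congr rfl (fun x _ => ?_)
        by_cases hox : opt x <;> simp [hox, hpdef]
      · intro x _ y _ hne
        rw [Function.onFun, Set.disjoint_left]
        rintro ω h1 h2
        exact hne ((show _ = _ from h1).symm.trans h2)
      · intro x _
        exact measSet_traj Z hZ nxt x0 t x
    rw [← h1, ofReal_measureReal]
  have hpt : ∀ ω, hitTime opt (traj nxt Z x0) ω ≤
      ∑' t, ({ω | ¬ opt (traj nxt Z x0 t ω)} : Set Ω).indicator (fun _ => (1 : ℝ≥0∞)) ω := by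
    intro ω
    by_cases hex : ∃ t, opt (traj nxt Z x0 t ω)
    · have h1 := Nat.find_spec hex
      have h2 := fun k => Nat.find_min hex (m := k)
      refine le_trans (iInf₂_le (Nat.find hex) h1) ?_
      refine le_trans ?_ (ENNReal.sum_le_tsum (Finset.range (Nat.find hex)))
      have h3 : ∑ t ∈ range (Nat.find hex),
          ({ω | ¬ opt (traj nxt Z x0 t ω)} : Set Ω).indicator (fun _ => (1 : ℝ≥0∞)) ω =
          ∑ t ∈ range (Nat.find hex), (1 : ℝ≥0∞) := by
        refine Finset.sum_congr rfl fun t ht => ?_
        rw [Set.indicator_of_mem]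
        exact h2 t (Finset.mem_range.1 ht)
      rw [h3, Finset.sum_const, Finset.card_range, nsmul_eq_mul, mul_one]
    · push Not at hex
      have h3 : ∀ t, ({ω | ¬ opt (traj nxt Z x0 t ω)} : Set Ω).indicator
          (fun _ => (1 : ℝ≥0∞)) ω = 1 := by
        intro t
        rw [Set.indicator_of_mem]
        exact hex t
      simp only [h3]
      rw [ENNReal.tsum_const_eq_top_of_ne_zero one_ne_zero]
      exact le_top
  calc ∫⁻ ω, hitTime opt (traj nxt Z x0) ω ∂P
      ≤ ∫⁻ ω, ∑' t, ({ω | ¬ opt (traj nxt Z x0 t ω)} : Set Ω).indicator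
          (fun _ => (1 : ℝ≥0∞)) ω ∂P := lintegral_mono hpt
    _ = ∑' t, ∫⁻ ω, ({ω | ¬ opt (traj nxt Z x0 t ω)} : Set Ω).indicator
          (fun _ => (1 : ℝ≥0∞)) ω ∂P := by
        rw [lintegral_tsum]
        intro t
        exact (measurable_const.indicator (hmeasN t)).aemeasurable
    _ = ∑' t, ENNReal.ofReal (s t) := by
        refine tsum_congr fun t => ?_
        rw [lintegral_indicator (hmeasN t), lintegral_const, one_mul,
          Measure.restrict_apply_univ, hsP t]
    _ ≤ ENNReal.ofReal (V x0) := by
        refine ENNReal.tsum_le_of_sum_range_le fun N => ?_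
        rw [← ENNReal.ofReal_sum_of_nonneg (fun t _ => hs0 t)]
        refine ENNReal.ofReal_le_ofReal ?_
        have h1 := hsum N
        have h2 := han N
        rw [ha0] at h1
        linarith

theorem sum_flipProb (hcard : 2 ≤ Fintype.card E) : ∑ F : Finset E, flipProb F = 1 := by
  have h := Finset.sum_pow_mul_eq_add_pow (1 / (Fintype.card E : ℝ))
    (1 - 1 / (Fintype.card E : ℝ)) (Finset.univ : Finset E)
  rw [Finset.powerset_univ, Finset.card_univ] at h
  unfold flipProb
  rw [h]
  simp

section model

variable {V : Type}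

instance instProbFlip : IsProbabilityMeasure (flipMeasure E) := by
  unfold flipMeasure; infer_instance

theorem flip_prob (i : ℕ × E) :
    flipMeasure E {ω | ω i = true} = ENNReal.ofReal (1 / (Fintype.card E : ℝ)) := by
  have h1 : (flipMeasure E).map (fun ω => ω i) = bernoulliMeasure true false (flipRate E) :=
    Measure.infinitePi_map_eval (fun _ : ℕ × E => bernoulliMeasure true false (flipRate E)) i
  have h2 : (flipMeasure E).map (fun ω => ω i) {true} = flipMeasure E {ω | ω i = true} := by
    rw [Measure.map_apply (measurable_pi_apply i) (measurableSet_singleton true)]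
    rfl
  rw [← h2, h1, bernoulliMeasure_apply_of_mem_of_notMem _ (measurableSet_singleton true) rfl
    (by simp)]
  have h3 : ((unitInterval.toNNReal (flipRate E) : NNReal) : ℝ) = 1 / (Fintype.card E : ℝ) := rfl
  rw [← h3, ENNReal.ofReal_coe_nnreal]

theorem run_eq (G : WGraph V E) (x0 : Finset E) (z : ℕ × E → Bool) (t : ℕ) :
    G.run x0 z t = traj G.select (fun i (ω : ℕ × E → Bool) => ω i) x0 t z := by
  induction t with
  | zero => rfl
  | succ t ih =>
    show G.select (G.run x0 z t) (WGraph.mutant z t (G.run x0 z t)) = _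
    rw [ih]
    rfl

theorem runtime_eq (G : WGraph V E) (x0 : Finset E) (z : ℕ × E → Bool) :
    G.runtime x0 z = hitTime (fun x => G.totalWeight x = G.optWeight)
      (traj G.select (fun i (ω : ℕ × E → Bool) => ω i) x0) z := by
  unfold WGraph.runtime hitTime
  simp only [run_eq]

/-- multiplicative drift for the expected runtime -/
theorem mult_drift (hcard : 2 ≤ Fintype.card E) (G : WGraph V E) (x0 : Finset E)
    (hx0 : G.IsSpanningTree x0) (Φ : Finset E → ℝ) (δ : ℝ) (hδ : 0 < δ)
    (h0 : ∀ x, G.IsSpanningTree x → G.totalWeight x = G.optWeight → Φ x = 0)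
    (h1 : ∀ x, G.IsSpanningTree x → G.totalWeight x ≠ G.optWeight → 1 ≤ Φ x)
    (hdr : ∀ x, G.IsSpanningTree x → G.totalWeight x ≠ G.optWeight →
      ∑ F : Finset E, flipProb F * Φ (G.select x (symmDiff x F)) ≤ (1 - δ) * Φ x) (B : ℝ)
    (hB : 1 ≤ B) (hΦB : Φ x0 ≤ B) :
    G.expectedRuntime x0 ≤ ENNReal.ofReal ((1 + Real.log B) / δ) := by
  classical
  have hfp := flipProb_nonneg (E := E) hcard
  have hsel : ∀ x y : Finset E, G.IsSpanningTree x → G.IsSpanningTree (G.select x y) := by
    intro x y h
    unfold WGraph.select
    split_ifs with hy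
    · exact hy.1
    · exact h
  have hopt : ∀ x y : Finset E, G.totalWeight x = G.optWeight →
      G.totalWeight (G.select x y) = G.optWeight := by
    intro x y h
    unfold WGraph.select
    split_ifs with hy
    · have h1 : G.optWeight ≤ G.totalWeight y := Nat.sInf_le ⟨y, hy.1, rfl⟩
      have h2 := hy.2
      omega
    · exact h
  set W : Finset E → ℝ := fun x => if G.totalWeight x = G.optWeight then 0 else
    (1 + Real.log (Φ x)) / δ with hW
  have hkey := drift_upper (E := E) (flipMeasure E)
    (fun i ω => ω i) (fun i => measurable_pi_apply i)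
    (iIndepFun_infinitePi (P := fun _ : ℕ × E =>
      bernoulliMeasure true false (flipRate E)) (X := fun _ b => b)
      (fun _ => measurable_id))
    hcard (fun i => flip_prob i) G.select
    (fun x => G.totalWeight x = G.optWeight)
    (fun x => G.IsSpanningTree x)
    W x0 hx0 (fun x y h => hsel x y h)
    (by
      intro x hx
      simp only [hW]
      split_ifs with h
      · exact le_rfl
      · have := Real.log_nonneg (h1 x hx h)
        positivity)
    (by
      intro x _ hox
      have : ∀ F : Finset E, flipProb F * W (G.select x (symmDiff x F)) = 0 := by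
        intro F
        have : W (G.select x (symmDiff x F)) = 0 := by
          simp only [hW]
          rw [if_pos (hopt x _ hox)]
        rw [this, mul_zero]
      rw [Finset.sum_congr rfl fun F _ => this F]
      simp only [hW]
      rw [if_pos hox]
      simp)
    (by
      intro x hx hox
      have hΦx := h1 x hx hox
      have hlog := Real.log_nonneg hΦx
      have hpos : 0 < Φ x := by linarith
      have key : ∀ F : Finset E, flipProb F * W (G.select x (symmDiff x F)) ≤
          flipProb F * (Real.log (Φ x) / δ) +
            flipProb F * Φ (G.select x (symmDiff x F)) * (1 / (δ * Φ x)) := by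
        intro F
        have hb : W (G.select x (symmDiff x F)) ≤
            Real.log (Φ x) / δ + Φ (G.select x (symmDiff x F)) * (1 / (δ * Φ x)) := by
          have hT := hsel x (symmDiff x F) hx
          simp only [hW]
          split_ifs with h
          · rw [h0 _ hT h, zero_mul, add_zero]
            positivity
          · have h2 := h1 _ hT h
            have h3 : Real.log (Φ (G.select x (symmDiff x F))) - Real.log (Φ x) ≤
                Φ (G.select x (symmDiff x F)) / Φ x - 1 := by
              rw [← Real.log_div (by linarith) (by linarith)]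
              exact Real.log_le_sub_one_of_pos (by positivity)
            have h4 : Real.log (Φ x) / δ + Φ (G.select x (symmDiff x F)) * (1 / (δ * Φ x)) =
                (Real.log (Φ x) + Φ (G.select x (symmDiff x F)) / Φ x) / δ := by
              field_simp
            rw [h4]
            apply div_le_div_of_nonneg_right _ hδ.le
            linarith
        calc flipProb F * W (G.select x (symmDiff x F)) ≤
            flipProb F * (Real.log (Φ x) / δ +
              Φ (G.select x (symmDiff x F)) * (1 / (δ * Φ x))) :=
              mul_le_mul_of_nonneg_left hb (hfp F)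
          _ = _ := by ring
      have hs := Finset.sum_le_sum fun F (_ : F ∈ (Finset.univ : Finset (Finset E))) => key F
      refine hs.trans ?_
      rw [Finset.sum_add_distrib, ← Finset.sum_mul, ← Finset.sum_mul, sum_flipProb hcard, one_mul]
      simp only [hW]
      rw [if_neg hox]
      have h5 : (∑ F : Finset E, flipProb F * Φ (G.select x (symmDiff x F))) *
          (1 / (δ * Φ x)) ≤ (1 - δ) * Φ x * (1 / (δ * Φ x)) :=
        mul_le_mul_of_nonneg_right (hdr x hx hox) (by positivity)
      have h6 : (1 - δ) * Φ x * (1 / (δ * Φ x)) = 1 / δ - 1 := by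
        field_simp
      have h7 : (1 + Real.log (Φ x)) / δ = 1 / δ + Real.log (Φ x) / δ := by ring
      rw [h6] at h5
      rw [h7]
      linarith)
  unfold WGraph.expectedRuntime
  have h8 : ∫⁻ z, G.runtime x0 z ∂(flipMeasure E) =
      ∫⁻ ω, hitTime (fun x => G.totalWeight x = G.optWeight)
        (traj G.select (fun i (ω : ℕ × E → Bool) => ω i) x0) ω ∂(flipMeasure E) := by
    apply lintegral_congr
    intro z
    exact runtime_eq G x0 z
  rw [h8]
  refine hkey.trans (ENNReal.ofReal_le_ofReal ?_)
  simp only [hW]
  split_ifs with h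
  · have := Real.log_nonneg hB
    positivity
  · have h2 := h1 x0 hx0 h
    apply div_le_div_of_nonneg_right _ hδ.le
    have : Real.log (Φ x0) ≤ Real.log B := Real.log_le_log (by linarith) hΦB
    linarith

end model

end Pool.Agent.V5helper67.EA
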