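import Pool.Agent.V5helper67.EA.Gap
import Pool.Agent.V5helper67.EA.Tree
import Pool.Agent.V5helper67.EA.Upper

open Finset

namespace Pool.Agent.V5helper67.EA

open Pool.Agent.Helper120.EaModel Pool.Agent.Helper120.EaJ4

variable {V E : Type} [Finite V] [Fintype E] [DecidableEq E] (G : WGraph V E) (lam : ℕ → ℝ)

open Classical in
/-- the improving swaps of a spanning tree -/
noncomputable def ZZ (x : Finset E) : Finset (E × E) :=
  Finset.univ.filter fun z => z.1 ∈ x ∧ z.2 ∉ x ∧ G.weight z.2 < G.weight z.1 ∧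
    G.IsSpanningTree (insert z.2 (x.erase z.1))

/-- the gain of a swap in the potential -/
noncomputable def UU (z : E × E) : ℝ := gg G.weight lam z.1 - gg G.weight lam z.2

/-- the potential of an edge set -/
noncomputable def gs (x : Finset E) : ℝ := ∑ e ∈ x, gg G.weight lam e

/-- the rates are admissible -/
structure Adm (w : E → ℕ) (ε : ℝ) (Vm : ℕ) (lam : ℕ → ℝ) : Prop where
  pos : ∀ v, 0 < lam v
  anti : ∀ a b, a ≤ b → b ≤ Vm → lam b ≤ lam a
  star : ∀ v, 1 ≤ v → v ≤ Vm → LL (nn w) (mu w) lam v ≤ ε * (v * lam v - 1)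
  eps : 0 < ε
  big : ∀ k e, k ≤ Fintype.card E → k * w e ≤ Vm
  card : 0 < Fintype.card E
  wpos : ∀ e, 0 < w e

variable {G lam}

omit [Finite V] in
theorem mem_ZZ {x : Finset E} {z : E × E} : z ∈ ZZ G x ↔ z.1 ∈ x ∧ z.2 ∉ x ∧
    G.weight z.2 < G.weight z.1 ∧ G.IsSpanningTree (insert z.2 (x.erase z.1)) := by
  unfold ZZ; simp

omit [DecidableEq E] in
theorem Adm.w_le {w : E → ℕ} {ε : ℝ} {Vm : ℕ} (h : Adm w ε Vm lam) (e : E) : w e ≤ Vm := by
  have := h.big 1 e h.card
  omega

omit [DecidableEq E] in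
/-- every scale costs at least one -/
theorem Adm.one_le {w : E → ℕ} {ε : ℝ} {Vm : ℕ} (h : Adm w ε Vm lam) {v : ℕ} (h1 : 1 ≤ v)
    (h2 : v ≤ Vm) : 1 ≤ v * lam v := by
  have h3 := h.star v h1 h2
  have h4 : 0 ≤ LL (nn w) (mu w) lam v := sum_nonneg fun s _ =>
    mul_nonneg (mul_nonneg (nn_nonneg s) (mul_nonneg (Nat.cast_nonneg _) (h.pos s).le))
      (mm_nonneg mu_nonneg _ _)
  have h5 : 0 ≤ ε * (v * lam v - 1) := h4.trans h3
  have h6 : 0 ≤ v * lam v - 1 := by
    by_contra hcon
    push Not at hcon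
    have := mul_neg_of_pos_of_neg h.eps hcon
    linarith
  linarith

omit [DecidableEq E] in
/-- a pair with positive difference: the potential difference is at least `u * lam u` -/
theorem Adm.gain {w : E → ℕ} {ε : ℝ} {Vm : ℕ} (h : Adm w ε Vm lam) {a b : E} (hab : w a ≤ w b)
    {v : ℕ} (hv : w b - w a ≤ v) (hvV : v ≤ Vm) :
    ((w b - w a : ℕ) : ℝ) * lam v ≤ gg w lam b - gg w lam a := by
  have h1 := gg_sub w lam hab
  have h2 := w_sub w hab
  rw [h1, add_sub_cancel_left]
  have h3 : w b - w a = ∑ t ∈ cr w a b, dl w t := by omega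
  rw [h3]
  push_cast
  rw [sum_mul]
  refine sum_le_sum fun t ht => ?_
  unfold cc
  refine mul_le_mul_of_nonneg_left ?_ (Nat.cast_nonneg _)
  exact h.anti _ _ ((dl_le w hab ht).trans hv) hvV

omit [DecidableEq E] in
/-- a bad pair: its potential difference is at most `u * lam v` plus the charged part -/
theorem Adm.loss {w : E → ℕ} {ε : ℝ} {Vm : ℕ} (h : Adm w ε Vm lam) {a b : E} (hab : w a < w b)
    {v v' : ℕ} (hv : w b - w a ≤ v') (hvV : v' ≤ Vm) (hvv : v ≤ v') :
    gg w lam b - gg w lam a ≤ ((w b - w a : ℕ) : ℝ) * lam v + LS w lam v' (a, b) := by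
  classical
  have h1 := gg_sub w lam hab.le
  have h2 := w_sub w hab.le
  rw [h1, add_sub_cancel_left]
  have h3 : w b - w a = ∑ t ∈ cr w a b, dl w t := by omega
  rw [h3]
  push_cast
  rw [sum_mul]
  unfold LS
  rw [if_pos ⟨hab, (mg_le w hab.le).trans hv⟩]
  simp only
  rw [← sum_filter_add_sum_filter_not (cr w a b) (fun t => lam v' < lam (dl w t))
    (fun t => cc w lam t)]
  have h4 : ∑ t ∈ (cr w a b).filter (fun t => ¬ lam v' < lam (dl w t)), cc w lam t ≤
      ∑ t ∈ cr w a b, (dl w t : ℝ) * lam v := by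
    calc _ ≤ ∑ t ∈ (cr w a b).filter (fun t => ¬ lam v' < lam (dl w t)),
          (dl w t : ℝ) * lam v := by
          refine sum_le_sum fun t ht => ?_
          rw [mem_filter] at ht
          unfold cc
          refine mul_le_mul_of_nonneg_left ?_ (Nat.cast_nonneg _)
          have h5 := h.anti v v' hvv hvV
          have h6 := not_lt.1 ht.2
          linarith
      _ ≤ _ := sum_le_sum_of_subset_of_nonneg (filter_subset _ _) fun t _ _ =>
          mul_nonneg (Nat.cast_nonneg _) (h.pos _).le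
  linarith

omit [Finite V] in
theorem gs_diff (x y : Finset E) :
    gs G lam y - gs G lam x = ∑ e ∈ y \ x, gg G.weight lam e - ∑ e ∈ x \ y, gg G.weight lam e := by
  unfold gs
  have h1 := sum_inter_add_sum_sdiff y x (fun e => gg G.weight lam e)
  have h2 := sum_inter_add_sum_sdiff x y (fun e => gg G.weight lam e)
  rw [inter_comm y x] at h1
  linarith

omit [Finite V] [Fintype E] in
theorem tw_diff (x y : Finset E) : G.totalWeight y + ∑ e ∈ x \ y, G.weight e =
    G.totalWeight x + ∑ e ∈ y \ x, G.weight e := by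
  unfold WGraph.totalWeight
  have h1 := sum_inter_add_sum_sdiff y x (fun e => G.weight e)
  have h2 := sum_inter_add_sum_sdiff x y (fun e => G.weight e)
  rw [inter_comm y x] at h1
  omega

/-- **The charging lemma.** -/
theorem charge {ε : ℝ} {Vm : ℕ} (hA : Adm G.weight ε Vm lam) {x y : Finset E}
    (hx : G.IsSpanningTree x) (hy : G.IsSpanningTree y)
    (hw : G.totalWeight y ≤ G.totalWeight x) :
    gs G lam y - gs G lam x ≤ ∑ z ∈ (ZZ G x).filter (fun z => z.1 ∈ x \ y ∧ z.2 ∈ y \ x),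
      ∑ q ∈ (Finset.univ : Finset (E × E)).filter
        (fun q => q.1 ∈ x \ y ∧ q.2 ∈ y \ x ∧ q.1 ≠ z.1 ∧ q.2 ≠ z.2),
        LS G.weight lam ((x \ y).card * (G.weight z.1 - G.weight z.2)) q := by
  classical
  obtain ⟨σ, hσ1, hσ2, hσ3⟩ := bij_exchange hx hy
  set w := G.weight with hwdef
  set B := y \ x with hB
  have hsumx : ∀ f : E → ℝ, ∑ e ∈ x \ y, f e = ∑ e ∈ B, f (σ e) := by
    intro f
    rw [← hσ3, sum_image hσ2]
  have hsumxN : ∀ f : E → ℕ, ∑ e ∈ x \ y, f e = ∑ e ∈ B, f (σ e) := by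
    intro f
    rw [← hσ3, sum_image hσ2]
  have hcard : (x \ y).card = B.card := by
    rw [← hσ3, card_image_of_injOn hσ2]
  -- gains and losses in weight
  set W := ∑ f ∈ B, (w (σ f) - w f) with hW
  have hbad : ∑ f ∈ B, (w f - w (σ f)) ≤ W := by
    have h1 : ∑ f ∈ B, (w f - w (σ f)) + ∑ f ∈ B, w (σ f) =
        ∑ f ∈ B, (w (σ f) - w f) + ∑ f ∈ B, w f := by
      rw [← sum_add_distrib, ← sum_add_distrib]
      refine sum_congr rfl fun f _ => ?_
      omega
    have h2 : G.totalWeight y + ∑ f ∈ B, w (σ f) = G.totalWeight x + ∑ f ∈ B, w f := by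
      rw [← hsumxN w]
      exact tw_diff (G := G) x y
    omega
  have hRHS : 0 ≤ ∑ z ∈ (ZZ G x).filter (fun z => z.1 ∈ x \ y ∧ z.2 ∈ B),
      ∑ q ∈ (Finset.univ : Finset (E × E)).filter
        (fun q => q.1 ∈ x \ y ∧ q.2 ∈ B ∧ q.1 ≠ z.1 ∧ q.2 ≠ z.2),
        LS w lam ((x \ y).card * (w z.1 - w z.2)) q :=
    sum_nonneg fun z _ => sum_nonneg fun q _ => LS_nonneg hA.pos _ _
  rw [gs_diff, hsumx, ← hwdef, ← sum_sub_distrib]
  rcases Nat.eq_zero_or_pos W with hW0 | hWpos
  · -- no gain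
    refine le_trans ?_ hRHS
    refine sum_nonpos fun f hf => ?_
    have h1 : w f - w (σ f) = 0 := by
      have h2 : w f - w (σ f) ≤ ∑ f ∈ B, (w f - w (σ f)) :=
        single_le_sum (f := fun f => w f - w (σ f)) (fun _ _ => Nat.zero_le _) hf
      omega
    have h2 : w f ≤ w (σ f) := by omega
    have := gg_mono (w := w) hA.pos h2
    linarith
  · -- the largest gain
    have hBne : B.Nonempty := by
      by_contra hcon
      rw [not_nonempty_iff_eq_empty] at hcon
      rw [hW, hcon, sum_empty] at hWpos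
      omega
    obtain ⟨f0, hf0, hmax⟩ := exists_max_image B (fun f => w (σ f) - w f) hBne
    set u := w (σ f0) - w f0 with hu
    have hWu : W ≤ B.card * u := by
      rw [hW, ← smul_eq_mul]
      exact sum_le_card_nsmul _ _ _ hmax
    have hupos : 0 < u := by
      rcases Nat.eq_zero_or_pos u with h | h
      · rw [h] at hWu; omega
      · exact h
    set v' := (x \ y).card * u with hv'
    have hWv : W ≤ v' := by rw [hv', hcard]; exact hWu
    have hv'V : v' ≤ Vm := by
      refine le_trans ?_ (hA.big (x \ y).card (σ f0) (card_le_univ _))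
      exact Nat.mul_le_mul_left _ (by omega)
    have hz : (σ f0, f0) ∈ (ZZ G x).filter (fun z => z.1 ∈ x \ y ∧ z.2 ∈ B) := by
      rw [mem_filter, mem_ZZ]
      have h1 := hσ1 f0 hf0
      have h2 := hf0
      rw [hB, mem_sdiff] at h2
      refine ⟨⟨(mem_sdiff.1 h1.1).1, h2.2, ?_, h1.2⟩, h1.1, hf0⟩
      change w f0 < w (σ f0)
      omega
    -- estimate of the sum
    have hgood : ∀ f ∈ B, w f ≤ w (σ f) →
        gg w lam f - gg w lam (σ f) ≤ - (((w (σ f) - w f : ℕ) : ℝ) * lam W) := by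
      intro f hf h
      have h1 : w (σ f) - w f ≤ W :=
        single_le_sum (f := fun f => w (σ f) - w f) (fun _ _ => Nat.zero_le _) hf
      have := hA.gain h h1 (hWv.trans hv'V)
      linarith
    have hbad1 : ∀ f ∈ B, w (σ f) < w f → w f - w (σ f) ≤ W := by
      intro f hf _
      exact (single_le_sum (f := fun f => w f - w (σ f)) (fun _ _ => Nat.zero_le _) hf).trans
        hbad
    have hbad2 : ∀ f ∈ B, w (σ f) < w f →
        gg w lam f - gg w lam (σ f) ≤ ((w f - w (σ f) : ℕ) : ℝ) * lam W +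
          LS w lam v' (σ f, f) := by
      intro f hf h
      exact hA.loss h ((hbad1 f hf h).trans hWv) hv'V hWv
    have hall : ∀ f ∈ B, gg w lam f - gg w lam (σ f) ≤
        ((w f - w (σ f) : ℕ) : ℝ) * lam W - ((w (σ f) - w f : ℕ) : ℝ) * lam W +
          (if w (σ f) < w f then LS w lam v' (σ f, f) else 0) := by
      intro f hf
      split_ifs with h
      · have h1 := hbad2 f hf h
        have h2 : w (σ f) - w f = 0 := by omega
        rw [h2]
        push_cast
        linarith
      · have h1 := hgood f hf (not_lt.1 h)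
        have h2 : w f - w (σ f) = 0 := by omega
        rw [h2]
        push_cast
        linarith
    have hlamW : 0 < lam W := hA.pos W
    have hstep1 : ∑ f ∈ B, (gg w lam f - gg w lam (σ f)) ≤
        ∑ f ∈ B, (if w (σ f) < w f then LS w lam v' (σ f, f) else 0) := by
      refine (sum_le_sum hall).trans ?_
      rw [sum_add_distrib, sum_sub_distrib, ← sum_mul, ← sum_mul]
      have h1 : (∑ f ∈ B, ((w f - w (σ f) : ℕ) : ℝ)) ≤ ∑ f ∈ B, ((w (σ f) - w f : ℕ) : ℝ) := by
        exact_mod_cast hbad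
      have h2 := mul_le_mul_of_nonneg_right h1 hlamW.le
      linarith
    have hstep2 : ∑ f ∈ B, (if w (σ f) < w f then LS w lam v' (σ f, f) else 0) ≤
        ∑ q ∈ (Finset.univ : Finset (E × E)).filter
          (fun q => q.1 ∈ x \ y ∧ q.2 ∈ B ∧ q.1 ≠ σ f0 ∧ q.2 ≠ f0), LS w lam v' q := by
      rw [← sum_filter]
      have hinj : Set.InjOn (fun f => (σ f, f)) (B.filter fun f => w (σ f) < w f : Finset E) := by
        intro f _ f' _ h
        exact (Prod.mk.injEq _ _ _ _ ▸ h).2
      rw [← sum_image (f := fun q => LS w lam v' q) hinj]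
      refine sum_le_sum_of_subset_of_nonneg ?_ fun q _ _ => LS_nonneg hA.pos _ _
      intro q hq
      rw [mem_image] at hq
      obtain ⟨f, hf, rfl⟩ := hq
      rw [mem_filter] at hf
      rw [mem_filter]
      have hne : f ≠ f0 := by
        intro hcon
        subst hcon
        omega
      refine ⟨mem_univ _, (hσ1 f hf.1).1, hf.1, ?_, hne⟩
      intro hcon
      exact hne (hσ2 (by exact_mod_cast hf.1) (by exact_mod_cast hf0) hcon)
    refine hstep1.trans (hstep2.trans ?_)
    have h3 := single_le_sum (f := fun z : E × E =>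
      ∑ q ∈ (Finset.univ : Finset (E × E)).filter
        (fun q => q.1 ∈ x \ y ∧ q.2 ∈ B ∧ q.1 ≠ z.1 ∧ q.2 ≠ z.2),
        LS w lam ((x \ y).card * (w z.1 - w z.2)) q)
      (fun z _ => sum_nonneg fun q _ => LS_nonneg hA.pos _ _) hz
    exact h3

end Pool.Agent.V5helper67.EA
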