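import Pool.Agent.V5helper67.EA.Lam

open Finset

namespace Pool.Agent.V5helper67.EA

/-- largest element of `T` below `t` (zero if there is none) -/
def prd (T : Finset ℕ) (t : ℕ) : ℕ := (T.filter (· < t)).sup id

/-- the gap below `t` -/
def gp (T : Finset ℕ) (t : ℕ) : ℕ := t - prd T t

theorem prd_lt {T : Finset ℕ} {t : ℕ} (ht : 0 < t) : prd T t < t := by
  unfold prd
  rw [Finset.sup_lt_iff (by simpa using ht)]
  intro a ha
  rw [mem_filter] at ha
  exact ha.2

theorem gp_pos {T : Finset ℕ} {t : ℕ} (ht : 0 < t) : 0 < gp T t := by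
  unfold gp
  have := prd_lt (T := T) ht
  omega

theorem gp_le {T : Finset ℕ} {t : ℕ} : gp T t ≤ t := Nat.sub_le _ _

theorem sum_gp {T : Finset ℕ} : ∀ {a : ℕ}, a ∈ T → ∑ t ∈ T.filter (· ≤ a), gp T t = a := by
  intro a
  induction a using Nat.strong_induction_on with
  | _ a ih =>
    intro ha
    have h1 : T.filter (· ≤ a) = insert a (T.filter (· < a)) := by
      ext t
      simp only [mem_filter, mem_insert]
      constructor
      · rintro ⟨h1, h2⟩
        rcases Nat.lt_or_ge t a with h | h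
        · exact Or.inr ⟨h1, h⟩
        · exact Or.inl (by omega)
      · rintro (h | h)
        · subst h; exact ⟨ha, le_rfl⟩
        · exact ⟨h.1, h.2.le⟩
    rw [h1, sum_insert (by simp)]
    rcases (T.filter (· < a)).eq_empty_or_nonempty with h2 | h2
    · rw [h2, sum_empty]
      unfold gp prd
      rw [h2]
      simp
    · have h3 : prd T a ∈ T.filter (· < a) := by
        unfold prd
        obtain ⟨b, hb, hb2⟩ := Finset.exists_mem_eq_sup _ h2 id
        rw [hb2]
        exact hb
      rw [mem_filter] at h3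
      have h4 : T.filter (· < a) = T.filter (· ≤ prd T a) := by
        ext t
        simp only [mem_filter]
        constructor
        · rintro ⟨h5, h6⟩
          refine ⟨h5, ?_⟩
          have : id t ≤ (T.filter (· < a)).sup id :=
            Finset.le_sup (mem_filter.2 ⟨h5, h6⟩)
          exact this
        · rintro ⟨h5, h6⟩
          exact ⟨h5, lt_of_le_of_lt h6 h3.2⟩
      rw [h4, ih _ h3.2 h3.1]
      unfold gp
      have := h3.2
      omega

variable {E : Type} [Fintype E] [DecidableEq E] (w : E → ℕ) (lam : ℕ → ℝ)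

/-- the distinct weights -/
def Ts : Finset ℕ := Finset.univ.image w

/-- the gap below the weight `t` -/
def dl (t : ℕ) : ℕ := gp (Ts w) t

/-- the rate of the gap below `t` -/
noncomputable def cc (t : ℕ) : ℝ := dl w t * lam (dl w t)

/-- the potential of an edge -/
noncomputable def gg (e : E) : ℝ := ∑ t ∈ (Ts w).filter (· ≤ w e), cc w lam t

/-- the gaps between the weights of two edges -/
def cr (a b : E) : Finset ℕ := (Ts w).filter fun t => w a < t ∧ t ≤ w b

omit [DecidableEq E] in
theorem w_mem (e : E) : w e ∈ Ts w := mem_image_of_mem _ (mem_univ _)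

omit [DecidableEq E] in
theorem filter_split {a b : E} (h : w a ≤ w b) :
    (Ts w).filter (· ≤ w b) = (Ts w).filter (· ≤ w a) ∪ cr w a b := by
  unfold cr
  ext t
  simp only [mem_filter, mem_union]
  constructor
  · rintro ⟨h1, h2⟩
    rcases Nat.lt_or_ge (w a) t with h3 | h3
    · exact Or.inr ⟨h1, h3, h2⟩
    · exact Or.inl ⟨h1, h3⟩
  · rintro (h1 | h1)
    · exact ⟨h1.1, h1.2.trans h⟩
    · exact ⟨h1.1, h1.2.2⟩

omit [DecidableEq E] in
theorem filter_disj {a b : E} : Disjoint ((Ts w).filter (· ≤ w a)) (cr w a b) := by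
  unfold cr
  rw [disjoint_left]
  intro t h1 h2
  rw [mem_filter] at h1 h2
  omega

omit [DecidableEq E] in
theorem gg_sub {a b : E} (h : w a ≤ w b) :
    gg w lam b = gg w lam a + ∑ t ∈ cr w a b, cc w lam t := by
  unfold gg
  rw [filter_split w h, sum_union (filter_disj w)]

omit [DecidableEq E] in
theorem w_sub {a b : E} (h : w a ≤ w b) : w b = w a + ∑ t ∈ cr w a b, dl w t := by
  have h1 := sum_gp (w_mem w b)
  have h2 := sum_gp (w_mem w a)
  rw [filter_split w h, sum_union (filter_disj w), h2] at h1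
  exact h1.symm

omit [DecidableEq E] in
theorem dl_le {a b : E} {t : ℕ} (h : w a ≤ w b) (ht : t ∈ cr w a b) : dl w t ≤ w b - w a := by
  have h1 := w_sub w h
  have h2 : dl w t ≤ ∑ t ∈ cr w a b, dl w t :=
    Finset.single_le_sum (f := fun t => dl w t) (fun _ _ => Nat.zero_le _) ht
  omega

/-- the largest gap between two edges -/
def mg (a b : E) : ℕ := (cr w a b).sup (dl w)

omit [DecidableEq E] in
theorem mg_le {a b : E} (h : w a ≤ w b) : mg w a b ≤ w b - w a :=
  Finset.sup_le fun _ ht => dl_le w h ht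

/-- number of gaps of size `v` -/
noncomputable def nn (v : ℕ) : ℝ := ((Ts w).filter (fun t => dl w t = v)).card

/-- normalised number of pairs with maximal gap `v` -/
noncomputable def mu (v : ℕ) : ℝ :=
  ((Finset.univ : Finset (E × E)).filter
    (fun q => w q.1 < w q.2 ∧ mg w q.1 q.2 = v)).card / (Fintype.card E : ℝ) ^ 2

/-- the part of a bad pair that is charged, at scale `v` -/
noncomputable def LS (v : ℕ) (q : E × E) : ℝ :=
  if w q.1 < w q.2 ∧ mg w q.1 q.2 ≤ v then
    ∑ t ∈ (cr w q.1 q.2).filter (fun t => lam v < lam (dl w t)), cc w lam t else 0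

variable {w lam}

omit [DecidableEq E] in
theorem nn_nonneg (v : ℕ) : 0 ≤ nn w v := by unfold nn; positivity

omit [DecidableEq E] in
theorem mu_nonneg (v : ℕ) : 0 ≤ mu w v := by unfold mu; positivity

omit [DecidableEq E] in
theorem cc_nonneg (hlam : ∀ v, 0 < lam v) (t : ℕ) : 0 ≤ cc w lam t :=
  mul_nonneg (Nat.cast_nonneg _) (hlam _).le

omit [DecidableEq E] in
theorem LS_nonneg (hlam : ∀ v, 0 < lam v) (v : ℕ) (q : E × E) : 0 ≤ LS w lam v q := by
  unfold LS
  split_ifs
  · exact sum_nonneg fun t _ => cc_nonneg hlam t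
  · exact le_rfl

omit [DecidableEq E] in
theorem gg_nonneg (hlam : ∀ v, 0 < lam v) (e : E) : 0 ≤ gg w lam e :=
  sum_nonneg fun t _ => cc_nonneg hlam t

omit [DecidableEq E] in
theorem gg_mono (hlam : ∀ v, 0 < lam v) {a b : E} (h : w a ≤ w b) : gg w lam a ≤ gg w lam b := by
  rw [gg_sub w lam h]
  have : 0 ≤ ∑ t ∈ cr w a b, cc w lam t := sum_nonneg fun t _ => cc_nonneg hlam t
  linarith

omit [DecidableEq E] in
theorem gg_eq {a b : E} (h : w a = w b) : gg w lam a = gg w lam b := by
  unfold gg; rw [h]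

omit [DecidableEq E] in
theorem card_pairs (hm : 0 < Fintype.card E) (s v : ℕ) :
    (((Finset.univ : Finset (E × E)).filter
      (fun q => w q.1 < w q.2 ∧ s ≤ mg w q.1 q.2 ∧ mg w q.1 q.2 ≤ v)).card : ℝ) =
      (Fintype.card E : ℝ) ^ 2 * mm (mu w) s v := by
  classical
  have hmR : (0 : ℝ) < (Fintype.card E : ℝ) ^ 2 := by
    have : (0 : ℝ) < Fintype.card E := by exact_mod_cast hm
    positivity
  unfold mm mu
  rw [← Finset.sum_div, mul_div_cancel₀ _ hmR.ne']
  rw [← Nat.cast_sum]
  congr 1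
  rw [Finset.card_eq_sum_card_fiberwise (f := fun q : E × E => mg w q.1 q.2) (t := Icc s v)]
  · refine Finset.sum_congr rfl fun i hi => ?_
    rw [mem_Icc] at hi
    congr 1
    ext q
    simp only [mem_filter, mem_univ, true_and]
    constructor
    · rintro ⟨h1, h2⟩
      exact ⟨h1.1, h2⟩
    · rintro ⟨h1, h2⟩
      exact ⟨⟨h1, by omega, by omega⟩, h2⟩
  · intro q hq
    rw [mem_coe, mem_filter] at hq
    rw [mem_coe, mem_Icc]
    exact hq.2.2

omit [DecidableEq E] in
theorem sum_LS (hm : 0 < Fintype.card E) (hlam : ∀ v, 0 < lam v) (hw : ∀ e, 0 < w e) (v : ℕ) :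
    ∑ q : E × E, LS w lam v q ≤ (Fintype.card E : ℝ) ^ 2 * LL (nn w) (mu w) lam v := by
  classical
  -- exchange the sums
  have h1 : ∀ q : E × E, LS w lam v q = ∑ t ∈ Ts w, if (lam v < lam (dl w t)) ∧
      (w q.1 < w q.2 ∧ mg w q.1 q.2 ≤ v ∧ t ∈ cr w q.1 q.2) then cc w lam t else 0 := by
    intro q
    unfold LS
    split_ifs with h
    · rw [← Finset.sum_filter]
      refine Finset.sum_congr ?_ fun _ _ => rfl
      ext t
      simp only [mem_filter]
      constructor
      · rintro ⟨h2, h3⟩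
        exact ⟨(mem_filter.1 h2).1, h3, h.1, h.2, h2⟩
      · rintro ⟨_, h3, _, _, h2⟩
        exact ⟨h2, h3⟩
    · symm
      refine Finset.sum_eq_zero fun t _ => ?_
      rw [if_neg]
      rintro ⟨_, h2, h3, _⟩
      exact h ⟨h2, h3⟩
  have h2 : ∑ q : E × E, LS w lam v q = ∑ t ∈ Ts w, ∑ q : E × E,
      if (lam v < lam (dl w t)) ∧
      (w q.1 < w q.2 ∧ mg w q.1 q.2 ≤ v ∧ t ∈ cr w q.1 q.2) then cc w lam t else 0 := by
    rw [Finset.sum_congr rfl fun q _ => h1 q, Finset.sum_comm]
  rw [h2]
  have h3 : ∀ t ∈ Ts w, (∑ q : E × E, if (lam v < lam (dl w t)) ∧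
      (w q.1 < w q.2 ∧ mg w q.1 q.2 ≤ v ∧ t ∈ cr w q.1 q.2) then cc w lam t else 0) ≤
      if (lam v < lam (dl w t)) ∧ dl w t ≤ v then
        (Fintype.card E : ℝ) ^ 2 * (cc w lam t * mm (mu w) (dl w t) v) else 0 := by
    intro t _
    split_ifs with h
    · rw [← Finset.sum_filter, Finset.sum_const, nsmul_eq_mul]
      have h4 : (((Finset.univ : Finset (E × E)).filter (fun q => (lam v < lam (dl w t)) ∧
          (w q.1 < w q.2 ∧ mg w q.1 q.2 ≤ v ∧ t ∈ cr w q.1 q.2))).card : ℝ) ≤
          (Fintype.card E : ℝ) ^ 2 * mm (mu w) (dl w t) v := by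
        rw [← card_pairs hm]
        norm_cast
        apply Finset.card_le_card
        intro q hq
        rw [mem_filter] at hq ⊢
        refine ⟨mem_univ _, hq.2.2.1, ?_, hq.2.2.2.1⟩
        exact Finset.le_sup (f := dl w) hq.2.2.2.2
      calc _ ≤ (Fintype.card E : ℝ) ^ 2 * mm (mu w) (dl w t) v * cc w lam t :=
            mul_le_mul_of_nonneg_right h4 (cc_nonneg hlam t)
        _ = _ := by ring
    · apply le_of_eq
      refine Finset.sum_eq_zero fun q _ => ?_
      rw [if_neg]
      rintro ⟨h5, _, h6, h7⟩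
      apply h
      refine ⟨h5, le_trans ?_ h6⟩
      exact Finset.le_sup (f := dl w) h7
  refine (Finset.sum_le_sum h3).trans (le_of_eq ?_)
  rw [← Finset.sum_filter]
  unfold LL
  rw [Finset.mul_sum]
  rw [← Finset.sum_fiberwise_of_maps_to (g := dl w)
    (t := (Icc 1 v).filter (fun s => lam v < lam s))]
  · refine Finset.sum_congr rfl fun s hs => ?_
    rw [mem_filter, mem_Icc] at hs
    have h4 : ∀ t ∈ ((Ts w).filter (fun t => lam v < lam (dl w t) ∧ dl w t ≤ v)).filter
        (fun t => dl w t = s), (Fintype.card E : ℝ) ^ 2 * (cc w lam t * mm (mu w) (dl w t) v) =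
        (Fintype.card E : ℝ) ^ 2 * ((s * lam s) * mm (mu w) s v) := by
      intro t ht
      rw [mem_filter] at ht
      unfold cc
      rw [ht.2]
    rw [Finset.sum_congr rfl h4, Finset.sum_const, nsmul_eq_mul]
    have h5 : ((Ts w).filter (fun t => lam v < lam (dl w t) ∧ dl w t ≤ v)).filter
        (fun t => dl w t = s) = (Ts w).filter (fun t => dl w t = s) := by
      ext t
      simp only [mem_filter]
      constructor
      · rintro ⟨⟨h6, _⟩, h7⟩
        exact ⟨h6, h7⟩
      · rintro ⟨h6, h7⟩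
        refine ⟨⟨h6, ?_, ?_⟩, h7⟩
        · rw [h7]; exact hs.2
        · omega
    rw [h5]
    unfold nn
    ring
  · intro t ht
    rw [mem_filter] at ht
    rw [mem_filter, mem_Icc]
    refine ⟨⟨?_, ht.2.2⟩, ht.2.1⟩
    have h6 : 0 < t := by
      obtain ⟨e, _, he⟩ := mem_image.1 ht.1
      rw [← he]; exact hw e
    exact gp_pos h6

omit [DecidableEq E] in
theorem sum_cc (hw : ∀ e, 0 < w e) {V : ℕ} (hV : ∀ e, w e ≤ V) :
    ∑ t ∈ Ts w, cc w lam t = TT (nn w) lam V := by
  classical
  unfold TT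
  rw [← Finset.sum_fiberwise_of_maps_to (g := dl w) (t := Icc 1 V)]
  · refine Finset.sum_congr rfl fun s _ => ?_
    have h4 : ∀ t ∈ (Ts w).filter (fun t => dl w t = s), cc w lam t = s * lam s := by
      intro t ht
      rw [mem_filter] at ht
      unfold cc
      rw [ht.2]
    rw [Finset.sum_congr rfl h4, Finset.sum_const, nsmul_eq_mul]
    unfold nn
    ring
  · intro t ht
    obtain ⟨e, _, he⟩ := mem_image.1 ht
    rw [mem_Icc]
    subst he
    exact ⟨gp_pos (hw e), gp_le.trans (hV e)⟩

omit [DecidableEq E] in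
theorem mm_nn (V : ℕ) : mm (nn w) 1 V ≤ Fintype.card E := by
  classical
  unfold mm nn
  rw [← Nat.cast_sum]
  norm_cast
  calc ∑ i ∈ Icc 1 V, ((Ts w).filter (fun t => dl w t = i)).card
      ≤ (Ts w).card := by
        rw [← Finset.card_biUnion]
        · apply Finset.card_le_card
          intro t ht
          rw [mem_biUnion] at ht
          obtain ⟨i, _, hi⟩ := ht
          exact (mem_filter.1 hi).1
        · intro i _ j _ hij
          rw [Function.onFun, disjoint_left]
          intro t h1 h2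
          rw [mem_filter] at h1 h2
          omega
    _ ≤ _ := Finset.card_image_le

omit [DecidableEq E] in
theorem mm_mu (hm : 0 < Fintype.card E) (V : ℕ) : mm (mu w) 1 V ≤ 1 / 2 := by
  classical
  have hmR : (0 : ℝ) < Fintype.card E := by exact_mod_cast hm
  have h1 := card_pairs (w := w) hm 1 V
  have h2 : 2 * ((Finset.univ : Finset (E × E)).filter
      (fun q => w q.1 < w q.2 ∧ 1 ≤ mg w q.1 q.2 ∧ mg w q.1 q.2 ≤ V)).card ≤
      (Fintype.card E) ^ 2 := by
    have h3 : ((Finset.univ : Finset (E × E)).filter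
      (fun q => w q.1 < w q.2 ∧ 1 ≤ mg w q.1 q.2 ∧ mg w q.1 q.2 ≤ V)).card ≤
      ((Finset.univ : Finset (E × E)).filter (fun q => w q.1 < w q.2)).card :=
      Finset.card_le_card fun q hq => by
        rw [mem_filter] at hq ⊢
        exact ⟨hq.1, hq.2.1⟩
    have h4 : ((Finset.univ : Finset (E × E)).filter (fun q => w q.1 < w q.2)).card =
        ((Finset.univ : Finset (E × E)).filter (fun q => w q.2 < w q.1)).card := by
      apply Finset.card_bij (fun q _ => (q.2, q.1))
      · intro q hq
        rw [mem_filter] at hq ⊢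
        exact ⟨mem_univ _, hq.2⟩
      · intro q _ q' _ h
        rw [Prod.mk.injEq] at h
        exact Prod.ext h.2 h.1
      · intro q hq
        rw [mem_filter] at hq
        exact ⟨(q.2, q.1), mem_filter.2 ⟨mem_univ _, hq.2⟩, rfl⟩
    have h5 : ((Finset.univ : Finset (E × E)).filter (fun q => w q.1 < w q.2)).card +
        ((Finset.univ : Finset (E × E)).filter (fun q => w q.2 < w q.1)).card ≤
        (Finset.univ : Finset (E × E)).card := by
      rw [← Finset.card_union_of_disjoint]
      · exact Finset.card_le_card (subset_univ _)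
      · rw [disjoint_left]
        intro q h6 h7
        rw [mem_filter] at h6 h7
        omega
    rw [Finset.card_univ, Fintype.card_prod] at h5
    nlinarith
  have h3 : 2 * ((Fintype.card E : ℝ) ^ 2 * mm (mu w) 1 V) ≤ (Fintype.card E : ℝ) ^ 2 := by
    rw [← h1]
    exact_mod_cast h2
  have h4 : (0 : ℝ) < (Fintype.card E : ℝ) ^ 2 := by positivity
  nlinarith

end Pool.Agent.V5helper67.EA
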