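import Mathlib

open Finset

namespace Pool.Agent.V5helper67.EA

/-- Cauchy-Schwarz for two products -/
theorem sqrt_add_le {a b c d : ℝ} (ha : 0 ≤ a) (hb : 0 ≤ b) (hc : 0 ≤ c) (hd : 0 ≤ d) :
    Real.sqrt (a * b) + Real.sqrt (c * d) ≤ Real.sqrt ((a + c) * (b + d)) := by
  apply Real.le_sqrt_of_sq_le
  have h1 : Real.sqrt (a * b) ^ 2 = a * b := Real.sq_sqrt (by positivity)
  have h2 : Real.sqrt (c * d) ^ 2 = c * d := Real.sq_sqrt (by positivity)
  have h3 : Real.sqrt (a * b) * Real.sqrt (c * d) = Real.sqrt (a * d) * Real.sqrt (b * c) := by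
    rw [← Real.sqrt_mul (by positivity), ← Real.sqrt_mul (by positivity)]
    congr 1
    ring
  have h4 : Real.sqrt (a * d) ^ 2 = a * d := Real.sq_sqrt (by positivity)
  have h5 : Real.sqrt (b * c) ^ 2 = b * c := Real.sq_sqrt (by positivity)
  nlinarith [sq_nonneg (Real.sqrt (a * d) - Real.sqrt (b * c))]

theorem one_add_le_exp_sqrt {z : ℝ} (hz : 0 ≤ z) : 1 + z ≤ Real.exp (Real.sqrt z) := by
  set y := Real.sqrt z with hy
  have hy0 : 0 ≤ y := Real.sqrt_nonneg z
  have hz2 : z = y ^ 2 := (Real.sq_sqrt hz).symm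
  have h := Real.sum_le_exp_of_nonneg hy0 4
  simp [Finset.sum_range_succ, Nat.factorial] at h
  rw [hz2]
  nlinarith [mul_nonneg hy0 (sq_nonneg (y - 3 / 2)), mul_nonneg hy0 (sq_nonneg y)]

variable (n μ : ℕ → ℝ)

/-- sum of the `μ i` with `s ≤ i ≤ v` -/
noncomputable def mm (s v : ℕ) : ℝ := ∑ i ∈ Icc s v, μ i

/-- the sum of `n s * (s * lam s) * μ [s, v]` over `1 ≤ s ≤ k` -/
noncomputable def SS (lam : ℕ → ℝ) (k v : ℕ) : ℝ := ∑ s ∈ Icc 1 k, n s * (s * lam s) * mm μ s v

/-- the sum of `n s * (s * lam s)` over `1 ≤ s ≤ k` -/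
noncomputable def TT (lam : ℕ → ℝ) (k : ℕ) : ℝ := ∑ s ∈ Icc 1 k, n s * (s * lam s)

/-- the left side of the star condition -/
noncomputable def LL (lam : ℕ → ℝ) (v : ℕ) : ℝ :=
  ∑ s ∈ (Icc 1 v).filter (fun s => lam v < lam s), n s * (s * lam s) * mm μ s v

variable {n μ}

theorem mm_nonneg (hμ : ∀ v, 0 ≤ μ v) (s v : ℕ) : 0 ≤ mm μ s v := Finset.sum_nonneg fun i _ => hμ i

theorem mm_mono_right (hμ : ∀ v, 0 ≤ μ v) {s v v' : ℕ} (h : v ≤ v') : mm μ s v ≤ mm μ s v' :=
  Finset.sum_le_sum_of_subset_of_nonneg (Finset.Icc_subset_Icc le_rfl h) fun i _ _ => hμ i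

theorem mm_mono_left (hμ : ∀ v, 0 ≤ μ v) {s s' v : ℕ} (h : s ≤ s') : mm μ s' v ≤ mm μ s v :=
  Finset.sum_le_sum_of_subset_of_nonneg (Finset.Icc_subset_Icc h le_rfl) fun i _ _ => hμ i

theorem mm_split {s k v : ℕ} (h1 : s ≤ k + 1) (h2 : k ≤ v) :
    mm μ s v = mm μ s k + mm μ (k + 1) v := by
  unfold mm
  rw [← Finset.sum_union]
  · congr 1
    ext i
    simp only [mem_Icc, mem_union]
    omega
  · rw [Finset.disjoint_left]
    intro i h3 h4
    rw [mem_Icc] at h3 h4
    omega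

theorem SS_congr {lam lam' : ℕ → ℝ} {k : ℕ} (h : ∀ s, 1 ≤ s → s ≤ k → lam' s = lam s) (v : ℕ) :
    SS n μ lam' k v = SS n μ lam k v := by
  unfold SS
  refine Finset.sum_congr rfl fun s hs => ?_
  rw [mem_Icc] at hs
  rw [h s hs.1 hs.2]

theorem TT_congr {lam lam' : ℕ → ℝ} {k : ℕ} (h : ∀ s, 1 ≤ s → s ≤ k → lam' s = lam s) :
    TT n lam' k = TT n lam k := by
  unfold TT
  refine Finset.sum_congr rfl fun s hs => ?_
  rw [mem_Icc] at hs
  rw [h s hs.1 hs.2]

theorem SS_split (lam : ℕ → ℝ) {k v : ℕ} (h : k ≤ v) :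
    SS n μ lam k v = SS n μ lam k k + TT n lam k * mm μ (k + 1) v := by
  unfold SS TT
  rw [Finset.sum_mul, ← Finset.sum_add_distrib]
  refine Finset.sum_congr rfl fun s hs => ?_
  rw [mem_Icc] at hs
  rw [mm_split (show s ≤ k + 1 by omega) h]
  ring

/-- the invariant of the construction -/
structure Pre (n μ : ℕ → ℝ) (V : ℕ) (ε x : ℝ) (k : ℕ) (lam : ℕ → ℝ) (l : ℝ) : Prop where
  pos : ∀ v, 0 < lam v
  lpos : 0 < l
  anti : ∀ a b, a ≤ b → b ≤ k → lam b ≤ lam a
  star : ∀ v, 1 ≤ v → v ≤ k → LL n μ lam v ≤ ε * (v * lam v - 1)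
  low : ∀ v, v ≤ k → l ≤ lam v
  block : k = 0 ∨ ∃ j < k, (∀ v, j < v → v ≤ k → lam v = l) ∧
    ∀ v, j < v → v ≤ V → ε + SS n μ lam j v ≤ ε * (l * v)
  psi : ε + SS n μ lam k k + x * TT n lam k ≤
    ε * Real.exp (mm μ 1 k / x + Real.sqrt (mm n 1 k * (mm μ 1 k / ε)) + mm n 1 k * x / ε)

theorem Pre.step (hn : ∀ v, 0 ≤ n v) (hμ : ∀ v, 0 ≤ μ v) {V : ℕ} {ε x : ℝ} (hε : 0 < ε)
    (hx : 0 < x) {k : ℕ} (hk : k < V) {lam : ℕ → ℝ} {l : ℝ} (h : Pre n μ V ε x k lam l) :
    ∃ k' lam' l', k < k' ∧ k' ≤ V ∧ Pre n μ V ε x k' lam' l' := by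
  classical
  -- the maximiser
  obtain ⟨v0, hv0, hmax⟩ := Finset.exists_max_image (Ioc k V)
    (fun v => (ε + SS n μ lam k v) / (ε * v)) ⟨V, by simp [hk]⟩
  rw [mem_Ioc] at hv0
  have hpos_v : ∀ v : ℕ, k < v → (0 : ℝ) < v := fun v hv => by
    have : 0 < v := by omega
    exact_mod_cast this
  have hnn : ∀ s, 0 ≤ n s * (s * lam s) := fun s =>
    mul_nonneg (hn s) (mul_nonneg (by positivity) (h.pos s).le)
  have hSS0 : ∀ i v, 0 ≤ SS n μ lam i v := fun i v =>
    Finset.sum_nonneg fun s _ => mul_nonneg (hnn s) (mm_nonneg hμ s v)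
  have hTT0 : ∀ i, 0 ≤ TT n lam i := fun i => Finset.sum_nonneg fun s _ => hnn s
  set Mx : ℝ := (ε + SS n μ lam k v0) / (ε * v0) with hMx
  have hMpos : 0 < Mx := by
    have := hSS0 k v0
    have := hpos_v v0 hv0.1
    positivity
  have hMv : ∀ v, k < v → v ≤ V → ε + SS n μ lam k v ≤ ε * (Mx * v) := by
    intro v hv1 hv2
    have h1 := hmax v (mem_Ioc.2 ⟨hv1, hv2⟩)
    have h2 := hpos_v v hv1
    rw [div_le_iff₀ (by positivity)] at h1
    calc ε + SS n μ lam k v ≤ Mx * (ε * v) := h1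
      _ = _ := by ring
  have hMv0 : ε + SS n μ lam k v0 = ε * (Mx * v0) := by
    have h2 := hpos_v v0 hv0.1
    rw [hMx]
    field_simp
  -- the new slope
  obtain ⟨l', hl'pos, hl'M, hl'low, hstar', hblock'⟩ : ∃ l' : ℝ, 0 < l' ∧ l' ≤ Mx ∧
      (∀ v, 1 ≤ v → v ≤ k → l' ≤ lam v) ∧
      (∀ v, k < v → v ≤ v0 →
        ∑ s ∈ (Icc 1 k).filter (fun s => l' < lam s), n s * (s * lam s) * mm μ s v ≤
          ε * (v * l' - 1)) ∧
      (∃ j ≤ k, (∀ v, 1 ≤ v → j < v → v ≤ k → lam v = l') ∧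
        ∀ v, j < v → v ≤ V → ε + SS n μ lam j v ≤ ε * (l' * v)) := by
    by_cases hc : k = 0 ∨ Mx ≤ l
    · refine ⟨Mx, hMpos, le_rfl, ?_, ?_, k, le_rfl, ?_, hMv⟩
      · intro v hv1 hv2
        rcases hc with hc | hc
        · omega
        · exact hc.trans (h.low v hv2)
      · intro v hv1 hv2
        have h1 := hMv v hv1 (hv2.trans hv0.2)
        have h2 : ∑ s ∈ (Icc 1 k).filter (fun s => Mx < lam s), n s * (s * lam s) * mm μ s v ≤
            SS n μ lam k v :=
          Finset.sum_le_sum_of_subset_of_nonneg (Finset.filter_subset _ _)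
            fun s _ _ => mul_nonneg (hnn s) (mm_nonneg hμ s v)
        have h3 : ε * (v * Mx - 1) = ε * (Mx * v) - ε := by ring
        rw [h3]
        linarith
      · intro v _ hv1 hv2
        omega
    · push Not at hc
      obtain ⟨hk0, hlM⟩ := hc
      rcases h.block with hb | ⟨j, hj, hb1, hb2⟩
      · exact absurd hb hk0
      · refine ⟨l, h.lpos, hlM.le, fun v _ hv => h.low v hv, ?_, j, hj.le,
          fun v _ h1 h2 => hb1 v h1 h2, hb2⟩
        intro v hv1 hv2
        have h1 := hb2 v (by omega) (hv2.trans hv0.2)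
        have h2 : ∑ s ∈ (Icc 1 k).filter (fun s => l < lam s), n s * (s * lam s) * mm μ s v ≤
            SS n μ lam j v := by
          refine Finset.sum_le_sum_of_subset_of_nonneg ?_
            fun s _ _ => mul_nonneg (hnn s) (mm_nonneg hμ s v)
          intro s hs
          rw [mem_filter, mem_Icc] at hs
          rw [mem_Icc]
          refine ⟨hs.1.1, ?_⟩
          by_contra hcon
          have := hb1 s (by omega) hs.1.2
          linarith [hs.2]
        have h3 : ε * (v * l - 1) = ε * (l * v) - ε := by ring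
        rw [h3]
        linarith
  -- the new function
  set lam' : ℕ → ℝ := fun v => if v = 0 then max (lam 0) (max (lam 1) l') else
    if v ≤ k then lam v else l' with hlam'
  have e0 : lam' 0 = max (lam 0) (max (lam 1) l') := by simp [hlam']
  have e1 : ∀ v, 1 ≤ v → v ≤ k → lam' v = lam v := by
    intro v hv1 hv2
    simp only [hlam']
    rw [if_neg (by omega), if_pos hv2]
  have e2 : ∀ v, k < v → lam' v = l' := by
    intro v hv
    simp only [hlam']
    rw [if_neg (by omega), if_neg (by omega)]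
  have hSSc : ∀ i v, i ≤ k → SS n μ lam' i v = SS n μ lam i v := fun i v hi =>
    SS_congr (fun s h1 h2 => e1 s h1 (h2.trans hi)) v
  have hge : ∀ v, l' ≤ lam' v := by
    intro v
    rcases Nat.eq_zero_or_pos v with hv | hv
    · rw [hv, e0]
      exact le_max_of_le_right (le_max_right _ _)
    · rcases le_or_gt v k with h1 | h1
      · rw [e1 v hv h1]; exact hl'low v hv h1
      · rw [e2 v h1]
  refine ⟨v0, lam', l', hv0.1, hv0.2, ⟨?_, hl'pos, ?_, ?_, ?_, ?_, ?_⟩⟩
  · intro v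
    exact lt_of_lt_of_le hl'pos (hge v)
  · intro a b hab hb
    rcases Nat.eq_zero_or_pos b with hb0 | hb0
    · have : a = b := by omega
      rw [this]
    rcases le_or_gt b k with hbk | hbk
    · rw [e1 b hb0 hbk]
      rcases Nat.eq_zero_or_pos a with ha | ha
      · rw [ha, e0]
        refine le_max_of_le_right (le_max_of_le_left ?_)
        exact h.anti 1 b hb0 hbk
      · rw [e1 a ha (by omega)]
        exact h.anti a b hab hbk
    · rw [e2 b hbk]
      exact hge a
  · intro v hv1 hv2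
    rcases le_or_gt v k with hvk | hvk
    · have h1 : LL n μ lam' v = LL n μ lam v := by
        unfold LL
        have : (Icc 1 v).filter (fun s => lam' v < lam' s) =
            (Icc 1 v).filter (fun s => lam v < lam s) := by
          apply Finset.filter_congr
          intro s hs
          rw [mem_Icc] at hs
          rw [e1 v hv1 hvk, e1 s hs.1 (by omega)]
        rw [this]
        refine Finset.sum_congr rfl fun s hs => ?_
        rw [mem_filter, mem_Icc] at hs
        rw [e1 s hs.1.1 (by omega)]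
      rw [h1, e1 v hv1 hvk]
      exact h.star v hv1 hvk
    · rw [e2 v hvk]
      refine le_trans (le_of_eq ?_) (hstar' v hvk hv2)
      unfold LL
      have : (Icc 1 v).filter (fun s => lam' v < lam' s) =
          (Icc 1 k).filter (fun s => l' < lam s) := by
        ext s
        simp only [mem_filter, mem_Icc]
        constructor
        · rintro ⟨⟨h1, h2⟩, h3⟩
          rw [e2 v hvk] at h3
          rcases le_or_gt s k with h4 | h4
          · rw [e1 s h1 h4] at h3
            exact ⟨⟨h1, h4⟩, h3⟩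
          · rw [e2 s h4] at h3
            exact absurd h3 (lt_irrefl _)
        · rintro ⟨⟨h1, h2⟩, h3⟩
          refine ⟨⟨h1, by omega⟩, ?_⟩
          rw [e2 v hvk, e1 s h1 h2]
          exact h3
      rw [this]
      refine Finset.sum_congr rfl fun s hs => ?_
      rw [mem_filter, mem_Icc] at hs
      rw [e1 s hs.1.1 hs.1.2]
  · intro v _
    exact hge v
  · right
    obtain ⟨j, hj, hb1, hb2⟩ := hblock'
    refine ⟨j, by omega, ?_, ?_⟩
    · intro v hv1 hv2
      rcases le_or_gt v k with hvk | hvk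
      · rw [e1 v (by omega) hvk]
        exact hb1 v (by omega) hv1 hvk
      · exact e2 v hvk
    · intro v hv1 hv2
      rw [hSSc j v hj]
      exact hb2 v hv1 hv2
  · -- the bound on psi
    obtain ⟨m1, hm1⟩ : ∃ m1, m1 = mm μ (k + 1) v0 := ⟨_, rfl⟩
    obtain ⟨n1, hn1⟩ : ∃ n1, n1 = mm n (k + 1) v0 := ⟨_, rfl⟩
    have hm10 : 0 ≤ m1 := hm1 ▸ mm_nonneg hμ _ _
    have hn10 : 0 ≤ n1 := hn1 ▸ mm_nonneg hn _ _
    have hv0' := hpos_v v0 hv0.1
    -- split of the sums
    have hsplitS : SS n μ lam' v0 v0 ≤ SS n μ lam k v0 + n1 * (Mx * v0) * m1 := by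
      have h1 : SS n μ lam' v0 v0 = SS n μ lam' k v0 +
          ∑ s ∈ Icc (k + 1) v0, n s * (s * lam' s) * mm μ s v0 := by
        unfold SS
        rw [← Finset.sum_union]
        · congr 1
          ext i
          simp only [mem_Icc, mem_union]
          omega
        · rw [Finset.disjoint_left]
          intro i h3 h4
          rw [mem_Icc] at h3 h4
          omega
      rw [h1, hSSc k v0 le_rfl]
      have h2 : ∑ s ∈ Icc (k + 1) v0, n s * (s * lam' s) * mm μ s v0 ≤
          ∑ s ∈ Icc (k + 1) v0, n s * (Mx * v0 * m1) := by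
        refine Finset.sum_le_sum fun s hs => ?_
        rw [mem_Icc] at hs
        rw [e2 s (by omega), mul_assoc]
        refine mul_le_mul_of_nonneg_left ?_ (hn s)
        have h3 : mm μ s v0 ≤ m1 := hm1 ▸ mm_mono_left hμ hs.1
        have h4 : (s : ℝ) * l' ≤ Mx * v0 := by
          have : (s : ℝ) ≤ v0 := by exact_mod_cast hs.2
          calc (s : ℝ) * l' ≤ v0 * Mx := mul_le_mul this hl'M hl'pos.le hv0'.le
            _ = _ := by ring
        exact mul_le_mul h4 h3 (mm_nonneg hμ _ _) (by positivity)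
      rw [← Finset.sum_mul] at h2
      have h3 : (∑ s ∈ Icc (k + 1) v0, n s) = n1 := hn1.symm
      rw [h3] at h2
      have h4 : n1 * (Mx * v0 * m1) = n1 * (Mx * v0) * m1 := by ring
      linarith
    have hsplitT : TT n lam' v0 ≤ TT n lam k + n1 * (Mx * v0) := by
      have h1 : TT n lam' v0 = TT n lam' k + ∑ s ∈ Icc (k + 1) v0, n s * (s * lam' s) := by
        unfold TT
        rw [← Finset.sum_union]
        · congr 1
          ext i
          simp only [mem_Icc, mem_union]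
          omega
        · rw [Finset.disjoint_left]
          intro i h3 h4
          rw [mem_Icc] at h3 h4
          omega
      rw [h1, TT_congr (fun s h1 h2 => e1 s h1 h2)]
      have h2 : ∑ s ∈ Icc (k + 1) v0, n s * (s * lam' s) ≤
          ∑ s ∈ Icc (k + 1) v0, n s * (Mx * v0) := by
        refine Finset.sum_le_sum fun s hs => ?_
        rw [mem_Icc] at hs
        rw [e2 s (by omega)]
        refine mul_le_mul_of_nonneg_left ?_ (hn s)
        have : (s : ℝ) ≤ v0 := by exact_mod_cast hs.2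
        calc (s : ℝ) * l' ≤ v0 * Mx := mul_le_mul this hl'M hl'pos.le hv0'.le
          _ = _ := by ring
      rw [← Finset.sum_mul] at h2
      have h3 : (∑ s ∈ Icc (k + 1) v0, n s) = n1 := hn1.symm
      rw [h3] at h2
      linarith
    obtain ⟨Ψ, hΨ⟩ : ∃ Ψ, Ψ = ε + SS n μ lam k k + x * TT n lam k := ⟨_, rfl⟩
    have hS0 := hSS0 k k
    have hT0 := hTT0 k
    have hSk : SS n μ lam k v0 = SS n μ lam k k + TT n lam k * m1 := by
      rw [hm1]; exact SS_split lam hv0.1.le
    obtain ⟨Q, hQ⟩ : ∃ Q, Q = ε + SS n μ lam k k + x * TT n lam k + TT n lam k * m1 := ⟨_, rfl⟩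
    have hQ0 : 0 < Q := by
      have := mul_nonneg hT0 hm10
      have := mul_nonneg hx.le hT0
      linarith
    have hQM : ε * (Mx * v0) ≤ Q := by
      rw [← hMv0, hSk, hQ]
      have := mul_nonneg hx.le hT0
      linarith
    have hQM' : Mx * v0 ≤ Q / ε := by
      rw [le_div_iff₀ hε]; linarith
    have hQΨ : Q ≤ Ψ * (1 + m1 / x) := by
      have e : Ψ * (1 + m1 / x) = Q + (ε + SS n μ lam k k) * (m1 / x) := by
        rw [hΨ, hQ]; field_simp; ring
      rw [e]
      have : 0 ≤ (ε + SS n μ lam k k) * (m1 / x) := by positivity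
      linarith
    have hfin : ε + SS n μ lam' v0 v0 + x * TT n lam' v0 ≤
        Ψ * ((1 + m1 / x) * (1 + n1 * (m1 / ε)) * (1 + n1 * x / ε)) := by
      have h1 : ε + SS n μ lam' v0 v0 + x * TT n lam' v0 ≤ Q + n1 * (Mx * v0) * (m1 + x) := by
        have := mul_le_mul_of_nonneg_left hsplitT hx.le
        rw [hQ]
        rw [hSk] at hsplitS
        nlinarith
      have h2 : n1 * (Mx * v0) * (m1 + x) ≤ n1 * (Q / ε) * (m1 + x) :=
        mul_le_mul_of_nonneg_right (mul_le_mul_of_nonneg_left hQM' hn10) (by positivity)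
      have h3 : Q + n1 * (Q / ε) * (m1 + x) ≤ Q * ((1 + n1 * (m1 / ε)) * (1 + n1 * x / ε)) := by
        have e : Q * ((1 + n1 * (m1 / ε)) * (1 + n1 * x / ε)) =
            Q + n1 * (Q / ε) * (m1 + x) + Q * (n1 * (m1 / ε)) * (n1 * x / ε) := by
          field_simp
          ring
        rw [e]
        have : 0 ≤ Q * (n1 * (m1 / ε)) * (n1 * x / ε) := by positivity
        linarith
      have h4 : Q * ((1 + n1 * (m1 / ε)) * (1 + n1 * x / ε)) ≤
          Ψ * (1 + m1 / x) * ((1 + n1 * (m1 / ε)) * (1 + n1 * x / ε)) :=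
        mul_le_mul_of_nonneg_right hQΨ (by positivity)
      calc _ ≤ _ := h1
        _ ≤ Q + n1 * (Q / ε) * (m1 + x) := by linarith
        _ ≤ _ := h3
        _ ≤ _ := h4
        _ = _ := by ring
    have hexp : (1 + m1 / x) * (1 + n1 * (m1 / ε)) * (1 + n1 * x / ε) ≤
        Real.exp (m1 / x + Real.sqrt (n1 * (m1 / ε)) + n1 * x / ε) := by
      rw [Real.exp_add, Real.exp_add]
      have a1 : 1 + m1 / x ≤ Real.exp (m1 / x) := by
        have := Real.add_one_le_exp (m1 / x); linarith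
      have a2 : 1 + n1 * (m1 / ε) ≤ Real.exp (Real.sqrt (n1 * (m1 / ε))) :=
        one_add_le_exp_sqrt (by positivity)
      have a3 : 1 + n1 * x / ε ≤ Real.exp (n1 * x / ε) := by
        have := Real.add_one_le_exp (n1 * x / ε); linarith
      exact mul_le_mul (mul_le_mul a1 a2 (by positivity) (by positivity)) a3 (by positivity)
        (by positivity)
    have hmu : mm μ 1 v0 = mm μ 1 k + m1 := by
      rw [hm1]; exact mm_split (by omega) hv0.1.le
    have hnu : mm n 1 v0 = mm n 1 k + n1 := by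
      rw [hn1]; exact mm_split (by omega) hv0.1.le
    have hb1 := mm_nonneg hμ 1 k
    have hb2 := mm_nonneg hn 1 k
    have hΨ0 : 0 ≤ Ψ := by
      rw [hΨ]
      have := mul_nonneg hx.le hT0
      linarith
    calc ε + SS n μ lam' v0 v0 + x * TT n lam' v0
        ≤ Ψ * ((1 + m1 / x) * (1 + n1 * (m1 / ε)) * (1 + n1 * x / ε)) := hfin
      _ ≤ Ψ * Real.exp (m1 / x + Real.sqrt (n1 * (m1 / ε)) + n1 * x / ε) :=
          mul_le_mul_of_nonneg_left hexp hΨ0
      _ ≤ ε * Real.exp (mm μ 1 k / x + Real.sqrt (mm n 1 k * (mm μ 1 k / ε)) +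
            mm n 1 k * x / ε) * Real.exp (m1 / x + Real.sqrt (n1 * (m1 / ε)) + n1 * x / ε) := by
          refine mul_le_mul_of_nonneg_right ?_ (Real.exp_pos _).le
          rw [hΨ]; exact h.psi
      _ = ε * Real.exp ((mm μ 1 k / x + Real.sqrt (mm n 1 k * (mm μ 1 k / ε)) +
            mm n 1 k * x / ε) + (m1 / x + Real.sqrt (n1 * (m1 / ε)) + n1 * x / ε)) := by
          rw [mul_assoc, ← Real.exp_add]
      _ ≤ ε * Real.exp (mm μ 1 v0 / x + Real.sqrt (mm n 1 v0 * (mm μ 1 v0 / ε)) +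
            mm n 1 v0 * x / ε) := by
          refine mul_le_mul_of_nonneg_left (Real.exp_le_exp.2 ?_) hε.le
          rw [hmu, hnu]
          have hcs := sqrt_add_le hb2 (div_nonneg hb1 hε.le) hn10 (div_nonneg hm10 hε.le)
          rw [← add_div] at hcs
          have e3 : (mm μ 1 k + m1) / x = mm μ 1 k / x + m1 / x := by ring
          have e4 : (mm n 1 k + n1) * x / ε = mm n 1 k * x / ε + n1 * x / ε := by ring
          rw [e3, e4]
          linarith

/-- **Existence of the rates.** -/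
theorem exists_lam (hn : ∀ v, 0 ≤ n v) (hμ : ∀ v, 0 ≤ μ v) (V : ℕ) {ε x : ℝ}
    (hε : 0 < ε) (hx : 0 < x) :
    ∃ lam : ℕ → ℝ, (∀ v, 0 < lam v) ∧ (∀ a b, a ≤ b → b ≤ V → lam b ≤ lam a) ∧
      (∀ v, 1 ≤ v → v ≤ V → LL n μ lam v ≤ ε * (v * lam v - 1)) ∧
      x * TT n lam V ≤ ε * Real.exp (mm μ 1 V / x + Real.sqrt (mm n 1 V * (mm μ 1 V / ε)) +
        mm n 1 V * x / ε) := by
  classical
  have hbase : Pre n μ V ε x 0 (fun _ => 1) 1 := by
    refine ⟨fun _ => one_pos, one_pos, fun _ _ _ _ => le_rfl, fun v h1 h2 => by omega,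
      fun _ _ => le_rfl, Or.inl rfl, ?_⟩
    unfold SS TT mm
    simp
  have hex : ∃ k, k ≤ V ∧ (∃ lam l, Pre n μ V ε x k lam l) ∧
      ∀ k', k' ≤ V → (∃ lam l, Pre n μ V ε x k' lam l) → k' ≤ k := by
    have hne : ((Finset.range (V + 1)).filter
        (fun k => ∃ lam l, Pre n μ V ε x k lam l)).Nonempty :=
      ⟨0, by rw [mem_filter]; exact ⟨by simp, _, _, hbase⟩⟩
    obtain ⟨k, hk, hk2⟩ := Finset.exists_max_image _ (fun k => k) hne
    rw [mem_filter, mem_range] at hk
    refine ⟨k, by omega, hk.2, ?_⟩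
    intro k' h1 h2
    exact hk2 k' (by rw [mem_filter, mem_range]; exact ⟨by omega, h2⟩)
  obtain ⟨k, hkV, ⟨lam, l, hP⟩, hkmax⟩ := hex
  have hkV' : k = V := by
    by_contra hne
    obtain ⟨k', lam', l', h1, h2, h3⟩ := hP.step hn hμ hε hx (by omega)
    have := hkmax k' h2 ⟨lam', l', h3⟩
    omega
  subst hkV'
  refine ⟨lam, hP.pos, hP.anti, hP.star, ?_⟩
  have h1 := hP.psi
  have h2 : 0 ≤ SS n μ lam k k := Finset.sum_nonneg fun s _ =>
    mul_nonneg (mul_nonneg (hn s) (mul_nonneg (by positivity) (hP.pos s).le)) (mm_nonneg hμ s k)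
  linarith

end Pool.Agent.V5helper67.EA
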