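import Pool.Agent.V5helper67.EA.Charge

open Finset

namespace Pool.Agent.V5helper67.EA

open Pool.Agent.Helper120.EaModel Pool.Agent.Helper120.EaJ4

section numeric

theorem sum_ratio (n : ℕ) : ∑ i ∈ range n, ((i : ℝ) + 4) / 2 / (Nat.factorial i : ℝ) ≤
    5 / 2 * Real.exp 1 := by
  have h1 : ∀ n, ∑ i ∈ range n, (i : ℝ) / (Nat.factorial i : ℝ) ≤ Real.exp 1 := by
    intro n
    rcases n with _ | n
    · simpa using (Real.exp_pos 1).le
    · rw [sum_range_succ']
      have h2 := Real.sum_le_exp_of_nonneg (x := 1) (by norm_num) n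
      refine le_trans (le_of_eq ?_) h2
      simp only [CharP.cast_eq_zero, zero_div, add_zero]
      refine sum_congr rfl fun i _ => ?_
      rw [Nat.factorial_succ]
      push_cast
      have : (0 : ℝ) < (i : ℝ) + 1 := by positivity
      have : (0 : ℝ) < (Nat.factorial i : ℝ) := by exact_mod_cast Nat.factorial_pos i
      rw [one_pow]
      field_simp
  have h3 := Real.sum_le_exp_of_nonneg (x := 1) (by norm_num) n
  have h4 : ∑ i ∈ range n, ((i : ℝ) + 4) / 2 / (Nat.factorial i : ℝ) =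
      1 / 2 * ∑ i ∈ range n, (i : ℝ) / (Nat.factorial i : ℝ) +
        2 * ∑ i ∈ range n, (1 : ℝ) ^ i / (Nat.factorial i : ℝ) := by
    rw [mul_sum, mul_sum, ← sum_add_distrib]
    refine sum_congr rfl fun i _ => ?_
    rw [one_pow]
    ring
  rw [h4]
  have := h1 n
  linarith

theorem sum_choose (m : ℕ) (hm : 0 < m) :
    ∑ j ∈ range (m + 1), (if 4 ≤ j then
      (((m - 4).choose (j - 4) : ℕ) : ℝ) * (1 / (m : ℝ)) ^ j * ((j / 2 : ℕ) : ℝ) else 0) ≤
      (1 / (m : ℝ)) ^ 4 * (5 / 2 * Real.exp 1) := by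
  have hmR : (0 : ℝ) < m := by exact_mod_cast hm
  have h1 : ∀ j ∈ range (m + 1), (if 4 ≤ j then
      (((m - 4).choose (j - 4) : ℕ) : ℝ) * (1 / (m : ℝ)) ^ j * ((j / 2 : ℕ) : ℝ) else 0) ≤
      (if 4 ≤ j then (1 / (m : ℝ)) ^ 4 *
        ((((j - 4 : ℕ) : ℝ) + 4) / 2 / (Nat.factorial (j - 4) : ℝ)) else 0) := by
    intro j _
    split_ifs with h
    · obtain ⟨i, rfl⟩ : ∃ i, j = i + 4 := ⟨j - 4, by omega⟩
      rw [Nat.add_sub_cancel]
      have h2 : (((m - 4).choose i : ℕ) : ℝ) ≤ ((m - 4 : ℕ) : ℝ) ^ i / (Nat.factorial i : ℝ) :=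
        Nat.choose_le_pow_div i (m - 4)
      have h3 : ((m - 4 : ℕ) : ℝ) ^ i ≤ (m : ℝ) ^ i :=
        pow_le_pow_left₀ (by positivity) (by exact_mod_cast Nat.sub_le m 4) i
      have h4 : (((i + 4) / 2 : ℕ) : ℝ) ≤ ((i : ℝ) + 4) / 2 := by
        refine Nat.cast_div_le.trans ?_
        push_cast
        rfl
      have hf : (0 : ℝ) < (Nat.factorial i : ℝ) := by exact_mod_cast Nat.factorial_pos i
      calc (((m - 4).choose i : ℕ) : ℝ) * (1 / (m : ℝ)) ^ (i + 4) * (((i + 4) / 2 : ℕ) : ℝ)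
          ≤ ((m : ℝ) ^ i / (Nat.factorial i : ℝ)) * (1 / (m : ℝ)) ^ (i + 4) *
            (((i : ℝ) + 4) / 2) := by
            refine mul_le_mul (mul_le_mul_of_nonneg_right (h2.trans ?_) (by positivity)) h4
              (by positivity) (by positivity)
            exact div_le_div_of_nonneg_right h3 hf.le
        _ = _ := by
            rw [pow_add]
            have : (m : ℝ) ^ i * (1 / (m : ℝ)) ^ i = 1 := by
              rw [← mul_pow, mul_one_div_cancel hmR.ne', one_pow]
            calc (m : ℝ) ^ i / (Nat.factorial i : ℝ) * ((1 / (m : ℝ)) ^ i * (1 / (m : ℝ)) ^ 4) *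
                  (((i : ℝ) + 4) / 2)
                = ((m : ℝ) ^ i * (1 / (m : ℝ)) ^ i) * (1 / (m : ℝ)) ^ 4 *
                  (((i : ℝ) + 4) / 2 / (Nat.factorial i : ℝ)) := by ring
              _ = _ := by rw [this]; ring
    · exact le_rfl
  refine (sum_le_sum h1).trans ?_
  have h2 : ∑ j ∈ range (m + 1), (if 4 ≤ j then (1 / (m : ℝ)) ^ 4 *
        ((((j - 4 : ℕ) : ℝ) + 4) / 2 / (Nat.factorial (j - 4) : ℝ)) else 0) ≤
      ∑ i ∈ range (m + 1), (1 / (m : ℝ)) ^ 4 *
        (((i : ℝ) + 4) / 2 / (Nat.factorial i : ℝ)) := by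
    rw [← sum_filter]
    have hinj : Set.InjOn (fun j => j - 4) ((range (m + 1)).filter (fun j => 4 ≤ j) : Finset ℕ) := by
      intro a ha b hb h
      rw [mem_coe, mem_filter] at ha hb
      simp only at h
      omega
    rw [← sum_image (f := fun i : ℕ => (1 / (m : ℝ)) ^ 4 *
        (((i : ℝ) + 4) / 2 / (Nat.factorial i : ℝ))) hinj]
    refine sum_le_sum_of_subset_of_nonneg ?_ fun i _ _ => by positivity
    intro i hi
    rw [mem_image] at hi
    obtain ⟨j, hj, rfl⟩ := hi
    rw [mem_filter, mem_range] at hj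
    rw [mem_range]
    omega
  refine h2.trans ?_
  rw [← mul_sum]
  exact mul_le_mul_of_nonneg_left (sum_ratio _) (by positivity)

theorem pow_ge_exp {m : ℕ} (hm : 2 ≤ m) :
    Real.exp (-1) ≤ (1 - 1 / (m : ℝ)) ^ (m - 2) := by
  have hmR : (2 : ℝ) ≤ m := by exact_mod_cast hm
  have hm0 : (0 : ℝ) < m := by linarith
  have hb0 : (0 : ℝ) < 1 - 1 / (m : ℝ) := by
    have : 1 / (m : ℝ) ≤ 1 / 2 := one_div_le_one_div_of_le (by norm_num) hmR
    linarith
  have hb1 : 1 - 1 / (m : ℝ) ≤ 1 := by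
    have : 0 ≤ 1 / (m : ℝ) := by positivity
    linarith
  have h1 : (1 - 1 / (m : ℝ)) ^ (m - 1) ≤ (1 - 1 / (m : ℝ)) ^ (m - 2) :=
    pow_le_pow_of_le_one hb0.le hb1 (by omega)
  refine le_trans ?_ h1
  have h2 : (1 - 1 / (m : ℝ)) ^ (m - 1) =
      Real.exp (((m - 1 : ℕ) : ℝ) * Real.log (1 - 1 / (m : ℝ))) := by
    rw [Real.exp_nat_mul, Real.exp_log hb0]
  rw [h2, Real.exp_le_exp]
  have h3 := Real.one_sub_inv_le_log_of_pos hb0
  have h4 : ((m - 1 : ℕ) : ℝ) = m - 1 := by
    rw [Nat.cast_sub (by omega)]; simp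
  rw [h4]
  have h5 : 1 - (1 - 1 / (m : ℝ))⁻¹ = -1 / ((m : ℝ) - 1) := by
    have : (m : ℝ) - 1 ≠ 0 := by
      have : (0 : ℝ) < (m : ℝ) - 1 := by linarith
      exact this.ne'
    have h6 : 1 - 1 / (m : ℝ) = ((m : ℝ) - 1) / m := by field_simp
    rw [h6, inv_div]
    field_simp
    ring
  rw [h5] at h3
  have h7 : (0 : ℝ) < (m : ℝ) - 1 := by linarith
  calc (-1 : ℝ) = ((m : ℝ) - 1) * (-1 / ((m : ℝ) - 1)) := by field_simp
    _ ≤ _ := mul_le_mul_of_nonneg_left h3 h7.le

end numeric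

variable {V E : Type} [Finite V] [Fintype E] [DecidableEq E] {G : WGraph V E} {lam : ℕ → ℝ}

theorem card_sup (Q : Finset E) (j : ℕ) :
    ((Finset.univ : Finset (Finset E)).filter (fun F => Q ⊆ F ∧ F.card = j)).card ≤
      (Fintype.card E - Q.card).choose (j - Q.card) := by
  classical
  have h1 : (Fintype.card E - Q.card).choose (j - Q.card) =
      (powersetCard (j - Q.card) Qᶜ).card := by
    rw [card_powersetCard, card_compl]
  rw [h1]
  apply card_le_card_of_injOn (fun F => F \ Q)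
  · intro F hF
    rw [mem_coe, mem_filter] at hF
    rw [mem_coe, mem_powersetCard]
    refine ⟨?_, ?_⟩
    · intro e he
      rw [mem_compl]
      exact (mem_sdiff.1 he).2
    · rw [card_sdiff_of_subset hF.2.1, hF.2.2]
  · intro F hF F' hF' h
    rw [mem_coe, mem_filter] at hF hF'
    simp only at h
    rw [← union_sdiff_of_subset hF.2.1, ← union_sdiff_of_subset hF'.2.1, h]

omit [DecidableEq E] in
theorem flipProb_le (hcard : 2 ≤ Fintype.card E) (F : Finset E) :
    flipProb F ≤ (1 / (Fintype.card E : ℝ)) ^ F.card := by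
  have hq0 : (0 : ℝ) ≤ 1 / (Fintype.card E : ℝ) := by positivity
  have hq1 : (1 : ℝ) / (Fintype.card E : ℝ) ≤ 1 := by
    rw [div_le_one (by positivity)]
    have : (2 : ℝ) ≤ Fintype.card E := by exact_mod_cast hcard
    linarith
  unfold flipProb
  exact mul_le_of_le_one_right (by positivity) (pow_le_one₀ (by linarith) (by linarith))

theorem sum_sup (hcard : 2 ≤ Fintype.card E) {Q : Finset E} (hQ : Q.card = 4) {φ : ℕ → ℝ}
    (hφ : ∀ j, 0 ≤ φ j) :
    ∑ F : Finset E, (if Q ⊆ F then flipProb F * φ F.card else 0) ≤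
      ∑ j ∈ range (Fintype.card E + 1), (if 4 ≤ j then
        (((Fintype.card E - 4).choose (j - 4) : ℕ) : ℝ) * (1 / (Fintype.card E : ℝ)) ^ j * φ j
        else 0) := by
  classical
  rw [← sum_filter]
  rw [← sum_fiberwise_of_maps_to (g := fun F : Finset E => F.card)
    (t := range (Fintype.card E + 1))]
  · refine sum_le_sum fun j _ => ?_
    have h1 : ∀ F ∈ ((Finset.univ : Finset (Finset E)).filter (fun F => Q ⊆ F)).filter
        (fun F => F.card = j), flipProb F * φ F.card ≤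
        (1 / (Fintype.card E : ℝ)) ^ j * φ j := by
      intro F hF
      rw [mem_filter] at hF
      rw [← hF.2]
      exact mul_le_mul_of_nonneg_right (flipProb_le hcard F) (hφ _)
    refine (sum_le_sum h1).trans ?_
    rw [sum_const, nsmul_eq_mul, filter_filter]
    split_ifs with h4
    · have h2 := card_sup Q j
      rw [hQ] at h2
      have h3 : (((Finset.univ : Finset (Finset E)).filter (fun F => Q ⊆ F ∧ F.card = j)).card : ℝ)
          ≤ (((Fintype.card E - 4).choose (j - 4) : ℕ) : ℝ) := by exact_mod_cast h2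
      rw [mul_assoc (((Fintype.card E - 4).choose (j - 4) : ℕ) : ℝ)]
      exact mul_le_mul_of_nonneg_right h3 (mul_nonneg (by positivity) (hφ j))
    · have h2 : ((Finset.univ : Finset (Finset E)).filter
          (fun F => Q ⊆ F ∧ F.card = j)) = ∅ := by
        rw [filter_eq_empty_iff]
        rintro F _ ⟨h5, h6⟩
        have := card_le_card h5
        omega
      rw [h2]
      simp
  · intro F _
    rw [mem_range]
    exact Nat.lt_succ_of_le (card_le_univ F)

open Classical in
/-- the charged loss of a flip set -/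
noncomputable def HH (G : WGraph V E) (lam : ℕ → ℝ) (x F : Finset E) : ℝ :=
  ∑ z ∈ ZZ G x, ∑ q ∈ (Finset.univ : Finset (E × E)).filter
    (fun q => q.1 ∈ x ∧ q.2 ∉ x ∧ q.1 ≠ z.1 ∧ q.2 ≠ z.2),
    if {z.1, z.2, q.1, q.2} ⊆ F then
      LS G.weight lam (F.card / 2 * (G.weight z.1 - G.weight z.2)) q else 0

omit [Finite V] in
theorem HH_nonneg {ε : ℝ} {Vm : ℕ} (hA : Adm G.weight ε Vm lam) (x F : Finset E) :
    0 ≤ HH G lam x F := by
  unfold HH
  refine sum_nonneg fun z _ => sum_nonneg fun q _ => ?_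
  split_ifs
  · exact LS_nonneg hA.pos _ _
  · exact le_rfl

omit [Finite V] in
theorem UU_nonneg {ε : ℝ} {Vm : ℕ} (hA : Adm G.weight ε Vm lam) {x : Finset E} {z : E × E}
    (hz : z ∈ ZZ G x) : 0 ≤ UU G lam z := by
  rw [mem_ZZ] at hz
  unfold UU
  have := gg_mono (w := G.weight) hA.pos hz.2.2.1.le
  linarith

theorem HH_ge {ε : ℝ} {Vm : ℕ} (hA : Adm G.weight ε Vm lam) {x F : Finset E}
    (hx : G.IsSpanningTree x) (hy : G.IsSpanningTree (symmDiff x F))
    (hw : G.totalWeight (symmDiff x F) ≤ G.totalWeight x) :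
    gs G lam (symmDiff x F) - gs G lam x ≤ HH G lam x F := by
  classical
  have h1 := charge hA hx hy hw
  have hs1 : x \ symmDiff x F = x ∩ F := by
    ext e; simp only [mem_sdiff, mem_symmDiff, mem_inter]; tauto
  have hs2 : symmDiff x F \ x = F \ x := by
    ext e; simp only [mem_sdiff, mem_symmDiff]; tauto
  have hc : (x \ symmDiff x F).card = F.card / 2 := by
    have h2 := tree_card hx hy
    have h3 := card_sdiff_add_card_inter x (symmDiff x F)
    have h4 := card_sdiff_add_card_inter (symmDiff x F) x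
    rw [inter_comm (symmDiff x F) x] at h4
    rw [hs1] at h3 ⊢
    rw [hs2] at h4
    have h5 := card_sdiff_add_card_inter F x
    rw [inter_comm F x] at h5
    omega
  refine h1.trans ?_
  rw [hc, hs1, hs2]
  unfold HH
  refine (sum_le_sum (g := fun z => ∑ q ∈ (Finset.univ : Finset (E × E)).filter
    (fun q => q.1 ∈ x ∧ q.2 ∉ x ∧ q.1 ≠ z.1 ∧ q.2 ≠ z.2),
    if {z.1, z.2, q.1, q.2} ⊆ F then
      LS G.weight lam (F.card / 2 * (G.weight z.1 - G.weight z.2)) q else 0) ?_).trans ?_
  · intro z hz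
    rw [mem_filter] at hz
    rw [← sum_filter]
    refine sum_le_sum_of_subset_of_nonneg ?_ fun q _ _ => LS_nonneg hA.pos _ _
    intro q hq
    rw [mem_filter] at hq ⊢
    rw [mem_filter]
    have h2 := mem_inter.1 hz.2.1
    have h3 := mem_sdiff.1 hz.2.2
    have h4 := mem_inter.1 hq.2.1
    have h5 := mem_sdiff.1 hq.2.2.1
    refine ⟨⟨mem_univ _, h4.1, h5.2, hq.2.2.2.1, hq.2.2.2.2⟩, ?_⟩
    intro e he
    simp only [mem_insert, mem_singleton] at he
    rcases he with rfl | rfl | rfl | rfl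
    · exact h2.2
    · exact h3.1
    · exact h4.2
    · exact h5.1
  · refine sum_le_sum_of_subset_of_nonneg (filter_subset _ _) fun z _ _ => ?_
    refine sum_nonneg fun q _ => ?_
    split_ifs
    · exact LS_nonneg hA.pos _ _
    · exact le_rfl

omit [Finite V] in
theorem HH_sum (hcard : 2 ≤ Fintype.card E) {ε : ℝ} {Vm : ℕ} (hA : Adm G.weight ε Vm lam)
    (x : Finset E) :
    ∑ F : Finset E, flipProb F * HH G lam x F ≤
      5 / 2 * Real.exp 1 * ε * (1 / (Fintype.card E : ℝ)) ^ 2 * ∑ z ∈ ZZ G x, UU G lam z := by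
  classical
  set m := Fintype.card E with hm
  set w := G.weight with hwd
  have hm0 : 0 < m := by omega
  have hmR : (0 : ℝ) < m := by exact_mod_cast hm0
  -- reorder
  have h1 : ∑ F : Finset E, flipProb F * HH G lam x F = ∑ z ∈ ZZ G x,
      ∑ q ∈ (Finset.univ : Finset (E × E)).filter
        (fun q => q.1 ∈ x ∧ q.2 ∉ x ∧ q.1 ≠ z.1 ∧ q.2 ≠ z.2), ∑ F : Finset E,
        (if {z.1, z.2, q.1, q.2} ⊆ F then
          flipProb F * LS w lam (F.card / 2 * (w z.1 - w z.2)) q else 0) := by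
    unfold HH
    simp only [mul_sum]
    rw [sum_comm]
    refine sum_congr rfl fun z _ => ?_
    rw [sum_comm]
    refine sum_congr rfl fun q _ => sum_congr rfl fun F _ => ?_
    rw [mul_ite, mul_zero]
  rw [h1, mul_sum]
  refine sum_le_sum fun z hz => ?_
  have hz' := mem_ZZ.1 hz
  set u := w z.1 - w z.2 with hu
  have hupos : 0 < u := by
    have : w z.2 < w z.1 := hz'.2.2.1
    omega
  -- one pair
  have h2 : ∀ q ∈ (Finset.univ : Finset (E × E)).filter
      (fun q => q.1 ∈ x ∧ q.2 ∉ x ∧ q.1 ≠ z.1 ∧ q.2 ≠ z.2), ∑ F : Finset E,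
        (if {z.1, z.2, q.1, q.2} ⊆ F then
          flipProb F * LS w lam (F.card / 2 * u) q else 0) ≤
        ∑ j ∈ range (m + 1), (if 4 ≤ j then
          (((m - 4).choose (j - 4) : ℕ) : ℝ) * (1 / (m : ℝ)) ^ j * LS w lam (j / 2 * u) q
          else 0) := by
    intro q hq
    rw [mem_filter] at hq
    obtain ⟨_, q1, q2, q3, q4⟩ := hq
    have hQ : ({z.1, z.2, q.1, q.2} : Finset E).card = 4 := by
      have a1 : z.1 ≠ z.2 := fun h => hz'.2.1 (h ▸ hz'.1)
      have a2 : z.1 ≠ q.2 := fun h => q2 (h ▸ hz'.1)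
      have a3 : z.2 ≠ q.1 := fun h => hz'.2.1 (h ▸ q1)
      have a4 : q.1 ≠ q.2 := fun h => q2 (h ▸ q1)
      rw [card_insert_of_notMem, card_insert_of_notMem, card_insert_of_notMem, card_singleton]
      · simpa using a4
      · simp only [mem_insert, mem_singleton, not_or]
        exact ⟨a3, q4.symm⟩
      · simp only [mem_insert, mem_singleton, not_or]
        exact ⟨a1, q3.symm, a2⟩
    exact sum_sup hcard hQ (φ := fun j => LS w lam (j / 2 * u) q)
      fun j => LS_nonneg hA.pos _ _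
  refine (sum_le_sum h2).trans ?_
  rw [sum_comm]
  -- one size
  have h3 : ∀ j ∈ range (m + 1), ∑ q ∈ (Finset.univ : Finset (E × E)).filter
      (fun q => q.1 ∈ x ∧ q.2 ∉ x ∧ q.1 ≠ z.1 ∧ q.2 ≠ z.2), (if 4 ≤ j then
          (((m - 4).choose (j - 4) : ℕ) : ℝ) * (1 / (m : ℝ)) ^ j * LS w lam (j / 2 * u) q
          else 0) ≤
      (if 4 ≤ j then (((m - 4).choose (j - 4) : ℕ) : ℝ) * (1 / (m : ℝ)) ^ j *
        ((j / 2 : ℕ) : ℝ) else 0) * ((m : ℝ) ^ 2 * (ε * UU G lam z)) := by
    intro j hj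
    rw [mem_range] at hj
    split_ifs with h4
    · rw [← mul_sum]
      have hj2 : 1 ≤ j / 2 := by omega
      have hv1 : 1 ≤ j / 2 * u := Nat.mul_pos hj2 hupos
      have hv2 : j / 2 * u ≤ Vm := by
        refine le_trans ?_ (hA.big (j / 2) z.1 (by omega))
        exact Nat.mul_le_mul_left _ (Nat.sub_le _ _)
      have h5 : ∑ q ∈ (Finset.univ : Finset (E × E)).filter
          (fun q => q.1 ∈ x ∧ q.2 ∉ x ∧ q.1 ≠ z.1 ∧ q.2 ≠ z.2), LS w lam (j / 2 * u) q ≤
          ∑ q : E × E, LS w lam (j / 2 * u) q :=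
        sum_le_sum_of_subset_of_nonneg (filter_subset _ _) fun q _ _ => LS_nonneg hA.pos _ _
      have h6 := sum_LS (w := w) hA.card hA.pos hA.wpos (j / 2 * u)
      have h7 := hA.star (j / 2 * u) hv1 hv2
      have h8 : lam (j / 2 * u) ≤ lam u :=
        hA.anti _ _ (Nat.le_mul_of_pos_left u hj2) hv2
      have h9 : (u : ℝ) * lam u ≤ UU G lam z := by
        have := hA.gain (v := u) hz'.2.2.1.le le_rfl
          (le_trans (Nat.sub_le _ _) (hA.w_le z.1))
        exact this
      have h10 : ((j / 2 * u : ℕ) : ℝ) * lam (j / 2 * u) ≤ ((j / 2 : ℕ) : ℝ) * UU G lam z := by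
        push_cast
        calc ((j / 2 : ℕ) : ℝ) * u * lam (j / 2 * u) ≤ ((j / 2 : ℕ) : ℝ) * u * lam u :=
              mul_le_mul_of_nonneg_left h8 (by positivity)
          _ = ((j / 2 : ℕ) : ℝ) * (u * lam u) := by ring
          _ ≤ _ := mul_le_mul_of_nonneg_left h9 (by positivity)
      have h11 : ∑ q : E × E, LS w lam (j / 2 * u) q ≤
          (m : ℝ) ^ 2 * (ε * (((j / 2 : ℕ) : ℝ) * UU G lam z)) := by
        refine h6.trans (mul_le_mul_of_nonneg_left (h7.trans ?_) (by positivity))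
        refine mul_le_mul_of_nonneg_left ?_ hA.eps.le
        linarith
      have h12 : (0 : ℝ) ≤ (((m - 4).choose (j - 4) : ℕ) : ℝ) * (1 / (m : ℝ)) ^ j := by
        positivity
      calc _ ≤ (((m - 4).choose (j - 4) : ℕ) : ℝ) * (1 / (m : ℝ)) ^ j *
            ((m : ℝ) ^ 2 * (ε * (((j / 2 : ℕ) : ℝ) * UU G lam z))) :=
            mul_le_mul_of_nonneg_left (h5.trans h11) h12
        _ = _ := by ring
    · simp
  refine (sum_le_sum h3).trans ?_
  rw [← sum_mul]
  have h13 := sum_choose m hm0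
  have hUU := UU_nonneg hA hz
  have h14 : 0 ≤ (m : ℝ) ^ 2 * (ε * UU G lam z) := by
    have := hA.eps
    positivity
  refine (mul_le_mul_of_nonneg_right h13 h14).trans (le_of_eq ?_)
  field_simp

omit [Finite V] in
theorem pair_prob (hcard : 2 ≤ Fintype.card E) {a b : E} (hab : a ≠ b) :
    Real.exp (-1) * (1 / (Fintype.card E : ℝ)) ^ 2 ≤ flipProb ({a, b} : Finset E) := by
  unfold flipProb
  rw [card_pair hab]
  rw [mul_comm]
  exact mul_le_mul_of_nonneg_left (pow_ge_exp hcard) (by positivity)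

/-- **The drift of the potential.** -/
theorem drift_main (hcard : 2 ≤ Fintype.card E) {ε : ℝ} {Vm : ℕ} (hA : Adm G.weight ε Vm lam)
    (hε : ε ≤ 1 / 50) {x : Finset E} (hx : G.IsSpanningTree x) :
    1 / 5 * (1 / (Fintype.card E : ℝ)) ^ 2 * ∑ z ∈ ZZ G x, UU G lam z ≤
      ∑ F : Finset E, flipProb F * (gs G lam x - gs G lam (G.select x (symmDiff x F))) := by
  classical
  set m := Fintype.card E with hm
  have hfp := flipProb_nonneg (E := E) hcard
  have hUU : ∀ z ∈ ZZ G x, 0 ≤ UU G lam z := fun z hz => UU_nonneg hA hz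
  have hS0 : 0 ≤ ∑ z ∈ ZZ G x, UU G lam z := sum_nonneg hUU
  have h1 : ∀ F : Finset E, (∑ z ∈ ZZ G x, if F = {z.1, z.2} then UU G lam z else 0) -
      HH G lam x F ≤ gs G lam x - gs G lam (G.select x (symmDiff x F)) := by
    intro F
    have hH := HH_nonneg hA x F
    by_cases hex : ∃ z ∈ ZZ G x, F = {z.1, z.2}
    · obtain ⟨z, hz, hF⟩ := hex
      have hz' := mem_ZZ.1 hz
      have h2 : ∑ z' ∈ ZZ G x, (if F = {z'.1, z'.2} then UU G lam z' else 0) = UU G lam z := by
        rw [sum_eq_single z]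
        · rw [if_pos hF]
        · intro z' hz2 hne
          rw [if_neg]
          intro hF'
          have hz3 := mem_ZZ.1 hz2
          apply hne
          rw [hF] at hF'
          have e1 : z'.1 ∈ ({z.1, z.2} : Finset E) := by rw [hF']; simp
          have e2 : z'.2 ∈ ({z.1, z.2} : Finset E) := by rw [hF']; simp
          simp only [mem_insert, mem_singleton] at e1 e2
          have e3 : z'.1 = z.1 := by
            rcases e1 with h | h
            · exact h
            · exact absurd (h ▸ hz3.1) hz'.2.1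
          have e4 : z'.2 = z.2 := by
            rcases e2 with h | h
            · exact absurd (h ▸ hz'.1) hz3.2.1
            · exact h
          exact Prod.ext e3 e4
        · exact fun h => absurd hz h
      rw [h2]
      have hsym : symmDiff x F = insert z.2 (x.erase z.1) := by
        rw [hF]
        ext e
        simp only [mem_symmDiff, mem_insert, mem_singleton, mem_erase]
        constructor
        · rintro (⟨h3, h4⟩ | ⟨h3, h4⟩)
          · push Not at h4
            exact Or.inr ⟨h4.1, h3⟩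
          · rcases h3 with h3 | h3
            · exact absurd (h3 ▸ hz'.1) h4
            · exact Or.inl h3
        · rintro (h3 | ⟨h3, h4⟩)
          · right
            exact ⟨Or.inr h3, h3 ▸ hz'.2.1⟩
          · left
            refine ⟨h4, ?_⟩
            rintro (h5 | h5)
            · exact h3 h5
            · exact hz'.2.1 (h5 ▸ h4)
      have hwt : G.totalWeight (symmDiff x F) + G.weight z.1 =
          G.totalWeight x + G.weight z.2 := by
        rw [hsym]
        unfold WGraph.totalWeight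
        rw [sum_insert (fun h => hz'.2.1 (mem_of_mem_erase h))]
        have := add_sum_erase x G.weight hz'.1
        omega
      have hsel : G.select x (symmDiff x F) = symmDiff x F := by
        unfold WGraph.select
        rw [if_pos]
        refine ⟨by rw [hsym]; exact hz'.2.2.2, ?_⟩
        have := hz'.2.2.1
        omega
      have hgs : gs G lam (symmDiff x F) + gg G.weight lam z.1 =
          gs G lam x + gg G.weight lam z.2 := by
        rw [hsym]
        unfold gs
        rw [sum_insert (fun h => hz'.2.1 (mem_of_mem_erase h))]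
        have := add_sum_erase x (fun e => gg G.weight lam e) hz'.1
        linarith
      rw [hsel]
      unfold UU
      linarith
    · push Not at hex
      have h2 : ∑ z' ∈ ZZ G x, (if F = {z'.1, z'.2} then UU G lam z' else 0) = 0 := by
        refine sum_eq_zero fun z hz => ?_
        rw [if_neg (hex z hz)]
      rw [h2]
      unfold WGraph.select
      split_ifs with h3
      · have := HH_ge hA hx h3.1 h3.2
        linarith
      · linarith
  have h2 : ∑ F : Finset E, flipProb F * ((∑ z ∈ ZZ G x, if F = {z.1, z.2} then UU G lam z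
      else 0) - HH G lam x F) ≤
      ∑ F : Finset E, flipProb F * (gs G lam x - gs G lam (G.select x (symmDiff x F))) :=
    sum_le_sum fun F _ => mul_le_mul_of_nonneg_left (h1 F) (hfp F)
  refine le_trans ?_ h2
  simp only [mul_sub, sum_sub_distrib]
  have h3 : Real.exp (-1) * (1 / (m : ℝ)) ^ 2 * ∑ z ∈ ZZ G x, UU G lam z ≤
      ∑ F : Finset E, flipProb F * ∑ z ∈ ZZ G x, (if F = {z.1, z.2} then UU G lam z else 0) := by
    simp only [mul_sum]
    rw [sum_comm]
    refine sum_le_sum fun z hz => ?_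
    have hz' := mem_ZZ.1 hz
    have a1 : z.1 ≠ z.2 := fun h => hz'.2.1 (h ▸ hz'.1)
    simp only [mul_ite, mul_zero]
    rw [sum_ite_eq' Finset.univ]
    rw [if_pos (mem_univ _)]
    exact mul_le_mul_of_nonneg_right (pair_prob hcard a1) (hUU z hz)
  have h4 := HH_sum hcard hA x
  have h5 : 5 / 2 * Real.exp 1 * ε * (1 / (m : ℝ)) ^ 2 * ∑ z ∈ ZZ G x, UU G lam z ≤
      (4 / 25) * ((1 / (m : ℝ)) ^ 2 * ∑ z ∈ ZZ G x, UU G lam z) := by
    rw [mul_assoc (5 / 2 * Real.exp 1 * ε)]
    refine mul_le_mul_of_nonneg_right ?_ (by positivity)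
    have he := Real.exp_one_lt_d9
    have := Real.exp_pos 1
    have := hA.eps
    nlinarith
  have h6 : (9 / 25 : ℝ) * ((1 / (m : ℝ)) ^ 2 * ∑ z ∈ ZZ G x, UU G lam z) ≤
      Real.exp (-1) * (1 / (m : ℝ)) ^ 2 * ∑ z ∈ ZZ G x, UU G lam z := by
    rw [mul_assoc (Real.exp (-1))]
    refine mul_le_mul_of_nonneg_right ?_ (by positivity)
    have := Real.exp_neg_one_gt_d9
    linarith
  have h7 : (1 / 5 : ℝ) * (1 / (m : ℝ)) ^ 2 * ∑ z ∈ ZZ G x, UU G lam z =
    (9 / 25 : ℝ) * ((1 / (m : ℝ)) ^ 2 * ∑ z ∈ ZZ G x, UU G lam z) -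
    (4 / 25) * ((1 / (m : ℝ)) ^ 2 * ∑ z ∈ ZZ G x, UU G lam z) := by ring
  rw [h7]
  linarith

end Pool.Agent.V5helper67.EA
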