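import Pool.Agent.V5helper67.EA.Sum

open Finset
open scoped ENNReal

namespace Pool.Agent.V5helper67.EA

open Pool.Agent.Helper120.EaModel Pool.Agent.Helper120.EaJ4

variable {V E : Type} [Finite V] [Fintype E] [DecidableEq E] {G : WGraph V E} {lam : ℕ → ℝ}

omit [Finite V] [Fintype E] [DecidableEq E] in
theorem exists_opt {x0 : Finset E} (hx0 : G.IsSpanningTree x0) :
    ∃ o, G.IsSpanningTree o ∧ G.totalWeight o = G.optWeight :=
  Nat.sInf_mem (s := {w | ∃ x, G.IsSpanningTree x ∧ G.totalWeight x = w}) ⟨_, x0, hx0, rfl⟩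

omit [Finite V] [Fintype E] [DecidableEq E] in
theorem opt_le {x : Finset E} (hx : G.IsSpanningTree x) : G.optWeight ≤ G.totalWeight x :=
  Nat.sInf_le ⟨x, hx, rfl⟩

omit [Finite V] [Fintype E] in
theorem tw_swap {x : Finset E} {a b : E} (ha : a ∈ x) (hb : b ∉ x) :
    G.totalWeight (insert b (x.erase a)) + G.weight a = G.totalWeight x + G.weight b := by
  unfold WGraph.totalWeight
  rw [sum_insert (fun h => hb (mem_of_mem_erase h))]
  have := add_sum_erase x G.weight ha
  omega

/-- comparison with an optimal tree -/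
theorem opt_pairs {o x : Finset E} (ho : G.IsSpanningTree o) (hoo : G.totalWeight o = G.optWeight)
    (hx : G.IsSpanningTree x) :
    ∃ σ : E → E, (∀ f ∈ x \ o, G.weight (σ f) ≤ G.weight f) ∧
      (∀ g : E → ℝ, ∑ e ∈ x, g e - ∑ e ∈ o, g e = ∑ f ∈ x \ o, (g f - g (σ f))) ∧
      G.totalWeight x = G.totalWeight o + ∑ f ∈ x \ o, (G.weight f - G.weight (σ f)) := by
  classical
  obtain ⟨σ, hσ1, hσ2, hσ3⟩ := bij_exchange ho hx
  have hle : ∀ f ∈ x \ o, G.weight (σ f) ≤ G.weight f := by
    intro f hf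
    obtain ⟨h1, h2⟩ := hσ1 f hf
    have h3 := opt_le h2
    have h4 := tw_swap (G := G) (mem_sdiff.1 h1).1 (mem_sdiff.1 hf).2
    omega
  refine ⟨σ, hle, ?_, ?_⟩
  · intro g
    have h1 := sum_inter_add_sum_sdiff x o g
    have h2 := sum_inter_add_sum_sdiff o x g
    rw [inter_comm o x] at h2
    rw [← hσ3, sum_image hσ2] at h2
    rw [sum_sub_distrib]
    linarith
  · have h1 := tw_diff (G := G) x o
    rw [← hσ3, sum_image hσ2] at h1
    have h2 : ∑ f ∈ x \ o, (G.weight f - G.weight (σ f)) + ∑ f ∈ x \ o, G.weight (σ f) =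
        ∑ f ∈ x \ o, G.weight f := by
      rw [← sum_add_distrib]
      refine sum_congr rfl fun f hf => ?_
      have := hle f hf
      omega
    omega

theorem phi_opt {o x : Finset E} (ho : G.IsSpanningTree o) (hoo : G.totalWeight o = G.optWeight)
    (hx : G.IsSpanningTree x) (hxo : G.totalWeight x = G.optWeight) :
    gs G lam x - gs G lam o = 0 := by
  classical
  obtain ⟨σ, h1, h2, h3⟩ := opt_pairs ho hoo hx
  unfold gs
  rw [h2]
  refine sum_eq_zero fun f hf => ?_
  have h4 : ∑ f ∈ x \ o, (G.weight f - G.weight (σ f)) = 0 := by omega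
  have h5 := (sum_eq_zero_iff.1 h4) f hf
  have h6 := h1 f hf
  rw [gg_eq (show G.weight f = G.weight (σ f) by omega), sub_self]

theorem phi_ge {ε : ℝ} {Vm : ℕ} (hA : Adm G.weight ε Vm lam) {o x : Finset E}
    (ho : G.IsSpanningTree o) (hoo : G.totalWeight o = G.optWeight)
    (hx : G.IsSpanningTree x) (hxo : G.totalWeight x ≠ G.optWeight) :
    1 ≤ gs G lam x - gs G lam o := by
  classical
  obtain ⟨σ, h1, h2, h3⟩ := opt_pairs ho hoo hx
  unfold gs
  rw [h2]
  have h4 : ∃ f ∈ x \ o, G.weight (σ f) < G.weight f := by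
    by_contra hcon
    push Not at hcon
    apply hxo
    have h5 : ∑ f ∈ x \ o, (G.weight f - G.weight (σ f)) = 0 := by
      refine sum_eq_zero fun f hf => ?_
      have := hcon f hf
      omega
    omega
  obtain ⟨f, hf, hlt⟩ := h4
  have h5 : ∀ f ∈ x \ o, 0 ≤ gg G.weight lam f - gg G.weight lam (σ f) := by
    intro f hf
    have := gg_mono (w := G.weight) hA.pos (h1 f hf)
    linarith
  refine le_trans ?_ (single_le_sum h5 hf)
  have h6 := hA.gain hlt.le le_rfl ((Nat.sub_le _ _).trans (hA.w_le f))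
  refine le_trans ?_ h6
  exact hA.one_le (by omega) ((Nat.sub_le _ _).trans (hA.w_le f))

theorem phi_le_UU {ε : ℝ} {Vm : ℕ} (hA : Adm G.weight ε Vm lam) {o x : Finset E}
    (ho : G.IsSpanningTree o) (hx : G.IsSpanningTree x) :
    gs G lam x - gs G lam o ≤ ∑ z ∈ ZZ G x, UU G lam z := by
  classical
  obtain ⟨σ, hσ1, hσ2, hσ3⟩ := bij_exchange hx ho
  have h1 : gs G lam x - gs G lam o =
      ∑ f ∈ o \ x, (gg G.weight lam (σ f) - gg G.weight lam f) := by
    have := gs_diff (G := G) (lam := lam) x o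
    rw [← hσ3, sum_image hσ2] at this
    rw [sum_sub_distrib]
    linarith
  rw [h1]
  have h2 : ∑ f ∈ o \ x, (gg G.weight lam (σ f) - gg G.weight lam f) ≤
      ∑ f ∈ (o \ x).filter (fun f => G.weight f < G.weight (σ f)),
        (gg G.weight lam (σ f) - gg G.weight lam f) := by
    rw [sum_filter]
    refine sum_le_sum fun f _ => ?_
    split_ifs with h
    · exact le_rfl
    · have := gg_mono (w := G.weight) hA.pos (not_lt.1 h)
      linarith
  refine h2.trans ?_
  have hinj : Set.InjOn (fun f => (σ f, f))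
      ((o \ x).filter fun f => G.weight f < G.weight (σ f) : Finset E) := by
    intro f _ f' _ h
    exact (Prod.mk.injEq _ _ _ _ ▸ h).2
  have h3 : ∑ f ∈ (o \ x).filter (fun f => G.weight f < G.weight (σ f)),
        (gg G.weight lam (σ f) - gg G.weight lam f) =
      ∑ z ∈ ((o \ x).filter (fun f => G.weight f < G.weight (σ f))).image (fun f => (σ f, f)),
        UU G lam z := by
    rw [sum_image hinj]
    rfl
  rw [h3]
  refine sum_le_sum_of_subset_of_nonneg ?_ fun z hz _ => UU_nonneg hA hz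
  intro z hz
  rw [mem_image] at hz
  obtain ⟨f, hf, rfl⟩ := hz
  rw [mem_filter] at hf
  have h4 := hσ1 f hf.1
  rw [mem_ZZ]
  exact ⟨(mem_sdiff.1 h4.1).1, (mem_sdiff.1 hf.1).2, hf.2, h4.2⟩

theorem upper_core (hcard : 2 ≤ Fintype.card E) {ε : ℝ} {Vm : ℕ} (hA : Adm G.weight ε Vm lam)
    (hε : ε ≤ 1 / 50) {x0 : Finset E} (hx0 : G.IsSpanningTree x0) {B : ℝ} (hB1 : 1 ≤ B)
    (hB : Fintype.card E * TT (nn G.weight) lam Vm ≤ B) :
    G.expectedRuntime x0 ≤
      ENNReal.ofReal (5 * (Fintype.card E : ℝ) ^ 2 * (1 + Real.log B)) := by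
  classical
  obtain ⟨o, ho, hoo⟩ := exists_opt hx0
  have hmR : (0 : ℝ) < Fintype.card E := by
    have : 0 < Fintype.card E := by omega
    exact_mod_cast this
  have hδ : (0 : ℝ) < 1 / 5 * (1 / (Fintype.card E : ℝ)) ^ 2 := by positivity
  have h := mult_drift hcard G x0 hx0 (fun x => gs G lam x - gs G lam o)
    (1 / 5 * (1 / (Fintype.card E : ℝ)) ^ 2) hδ
    (fun x hx hxo => phi_opt ho hoo hx hxo)
    (fun x hx hxo => phi_ge hA ho hoo hx hxo)
    (by
      intro x hx hxo
      have h1 := drift_main hcard hA hε hx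
      have h2 := phi_le_UU hA ho hx
      have h3 : ∑ F : Finset E, flipProb F * (gs G lam (G.select x (symmDiff x F)) -
          gs G lam o) = (gs G lam x - gs G lam o) -
          ∑ F : Finset E, flipProb F * (gs G lam x - gs G lam (G.select x (symmDiff x F))) := by
        have h4 : ∀ F : Finset E, flipProb F * (gs G lam (G.select x (symmDiff x F)) -
          gs G lam o) = flipProb F * (gs G lam x - gs G lam o) -
            flipProb F * (gs G lam x - gs G lam (G.select x (symmDiff x F))) := by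
          intro F; ring
        rw [sum_congr rfl fun F _ => h4 F, sum_sub_distrib, ← sum_mul, sum_flipProb hcard,
          one_mul]
      rw [h3]
      have h5 : 1 / 5 * (1 / (Fintype.card E : ℝ)) ^ 2 * (gs G lam x - gs G lam o) ≤
          1 / 5 * (1 / (Fintype.card E : ℝ)) ^ 2 * ∑ z ∈ ZZ G x, UU G lam z :=
        mul_le_mul_of_nonneg_left h2 hδ.le
      linarith) B hB1 (by
      have h1 : gs G lam x0 ≤ Fintype.card E * TT (nn G.weight) lam Vm := by
        unfold gs
        have h2 : ∀ e ∈ x0, gg G.weight lam e ≤ TT (nn G.weight) lam Vm := by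
          intro e _
          rw [← sum_cc (w := G.weight) hA.wpos hA.w_le]
          unfold gg
          exact sum_le_sum_of_subset_of_nonneg (filter_subset _ _)
            fun t _ _ => cc_nonneg hA.pos t
        refine (sum_le_sum h2).trans ?_
        rw [sum_const, nsmul_eq_mul]
        refine mul_le_mul_of_nonneg_right (by exact_mod_cast card_le_univ x0) ?_
        rw [← sum_cc (w := G.weight) hA.wpos hA.w_le]
        exact sum_nonneg fun t _ => cc_nonneg hA.pos t
      have h2 : 0 ≤ gs G lam o := sum_nonneg fun e _ => gg_nonneg hA.pos e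
      show gs G lam x0 - gs G lam o ≤ B
      linarith)
  refine h.trans (le_of_eq ?_)
  congr 1
  field_simp

omit [DecidableEq E] in
theorem exists_adm (w : E → ℕ) (hw : ∀ e, 0 < w e) (hcard : 0 < Fintype.card E) :
    ∃ (Vm : ℕ) (lam : ℕ → ℝ), Adm w (1 / 50) Vm lam ∧
      Fintype.card E * TT (nn w) lam Vm ≤ Real.exp (19 * Real.sqrt (Fintype.card E)) := by
  classical
  obtain ⟨m, hm⟩ : ∃ m : ℝ, m = Fintype.card E := ⟨_, rfl⟩
  have hm1 : 1 ≤ m := by rw [hm]; exact_mod_cast hcard
  have hm0 : 0 < m := by linarith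
  set s := Real.sqrt m with hs
  have hs0 : 0 < s := Real.sqrt_pos.2 hm0
  have hs1 : 1 ≤ s := by rw [hs]; exact Real.one_le_sqrt.2 hm1
  have hss : s * s = m := Real.mul_self_sqrt hm0.le
  set Vm := Fintype.card E * ∑ e, w e with hVm
  obtain ⟨lam, h1, h2, h3, h4⟩ := exists_lam (n := nn w) (μ := mu w) nn_nonneg mu_nonneg Vm
    (ε := 1 / 50) (x := 1 / (7 * s)) (by norm_num) (by positivity)
  refine ⟨Vm, lam, ⟨h1, h2, h3, by norm_num, ?_, hcard, hw⟩, ?_⟩
  · intro k e hk
    rw [hVm]
    exact Nat.mul_le_mul hk (single_le_sum (f := w) (fun _ _ => Nat.zero_le _) (mem_univ e))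
  · rw [← hm]
    have a1 := mm_nn (w := w) Vm
    have a2 := mm_mu (w := w) hcard Vm
    have a3 := mm_nonneg (μ := nn w) nn_nonneg 1 Vm
    have a4 := mm_nonneg (μ := mu w) mu_nonneg 1 Vm
    rw [← hm] at a1
    obtain ⟨N, hN⟩ : ∃ N, N = mm (nn w) 1 Vm := ⟨_, rfl⟩
    obtain ⟨M, hM⟩ : ∃ M, M = mm (mu w) 1 Vm := ⟨_, rfl⟩
    rw [← hN] at a1 a3 h4
    rw [← hM] at a2 a4 h4
    have b1 : M / (1 / (7 * s)) ≤ 7 / 2 * s := by
      rw [div_div_eq_mul_div, div_one]
      nlinarith
    have b2 : Real.sqrt (N * (M / (1 / 50))) ≤ 5 * s := by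
      apply Real.sqrt_le_iff.2
      refine ⟨by positivity, ?_⟩
      have : N * (M / (1 / 50)) = 50 * (N * M) := by ring
      rw [this, mul_pow, sq s, hss]
      nlinarith
    have b3 : N * (1 / (7 * s)) / (1 / 50) ≤ 50 / 7 * s := by
      rw [div_le_iff₀ (by norm_num), mul_one_div, div_le_iff₀ (by positivity)]
      nlinarith
    have b4 : TT (nn w) lam Vm ≤ 7 * s * (1 / 50 * Real.exp (47 / 3 * s)) := by
      have c1 : M / (1 / (7 * s)) + Real.sqrt (N * (M / (1 / 50))) +
          N * (1 / (7 * s)) / (1 / 50) ≤ 47 / 3 * s := by linarith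
      have c2 : 1 / (7 * s) * TT (nn w) lam Vm ≤ 1 / 50 * Real.exp (47 / 3 * s) :=
        h4.trans (mul_le_mul_of_nonneg_left (Real.exp_le_exp.2 c1) (by norm_num))
      rw [one_div_mul_eq_div, div_le_iff₀ (by positivity)] at c2
      linarith
    have b5 : m * (7 * s * (1 / 50)) ≤ Real.exp (3 * s) := by
      have c1 : s ≤ Real.exp s := by
        have := Real.add_one_le_exp s; linarith
      have c2 : Real.exp (3 * s) = Real.exp s * Real.exp s * Real.exp s := by
        rw [← Real.exp_add, ← Real.exp_add]; ring_nf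
      rw [c2, ← hss]
      have c3 : s * s * s ≤ Real.exp s * Real.exp s * Real.exp s :=
        mul_le_mul (mul_le_mul c1 c1 hs0.le (by positivity)) c1 hs0.le (by positivity)
      have c4 : 0 ≤ s * s * s := by positivity
      nlinarith
    calc m * TT (nn w) lam Vm ≤ m * (7 * s * (1 / 50 * Real.exp (47 / 3 * s))) :=
          mul_le_mul_of_nonneg_left b4 hm0.le
      _ = m * (7 * s * (1 / 50)) * Real.exp (47 / 3 * s) := by ring
      _ ≤ Real.exp (3 * s) * Real.exp (47 / 3 * s) :=
          mul_le_mul_of_nonneg_right b5 (Real.exp_pos _).le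
      _ = Real.exp (3 * s + 47 / 3 * s) := by rw [← Real.exp_add]
      _ ≤ Real.exp (19 * s) := Real.exp_le_exp.2 (by nlinarith)

/-- **The upper bound.** -/
theorem upper (G : WGraph V E) (x0 : Finset E) (hx0 : G.IsSpanningTree x0) :
    G.expectedRuntime x0 ≤ ENNReal.ofReal (100 * (Fintype.card E : ℝ) ^ (5 / 2 : ℝ)) := by
  classical
  rcases Nat.lt_or_ge (Fintype.card E) 2 with hlt | hcard
  · -- at most one edge: the start is optimal
    have h0 : G.totalWeight x0 = G.optWeight := by
      obtain ⟨o, ho, hoo⟩ := exists_opt hx0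
      have h1 := tree_card hx0 ho
      have h2 : x0 = o := by
        have h3 : ∀ x : Finset E, x.card = 0 ∨ x = Finset.univ := by
          intro x
          rcases Nat.eq_zero_or_pos x.card with h | h
          · exact Or.inl h
          · right
            apply eq_univ_of_card
            have := card_le_univ x
            omega
        rcases h3 x0 with h4 | h4
        · rw [card_eq_zero.1 h4, card_eq_zero.1 (by omega : o.card = 0)]
        · rcases h3 o with h5 | h5
          · rw [card_eq_zero.1 h5, card_eq_zero.1 (by omega : x0.card = 0)]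
          · rw [h4, h5]
      rw [h2, hoo]
    have h1 : G.expectedRuntime x0 = 0 := by
      unfold WGraph.expectedRuntime
      have : ∀ z, G.runtime x0 z = 0 := by
        intro z
        unfold WGraph.runtime
        apply le_antisymm _ zero_le
        exact iInf₂_le_of_le 0 h0 (by simp)
      simp [this]
    rw [h1]
    exact zero_le
  · obtain ⟨Vm, lam, hA, hB⟩ := exists_adm G.weight G.weight_pos (by omega)
    have hmR : (2 : ℝ) ≤ Fintype.card E := by exact_mod_cast hcard
    obtain ⟨m, hm⟩ : ∃ m : ℝ, m = Fintype.card E := ⟨_, rfl⟩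
    have h := upper_core hcard hA le_rfl hx0 (B := Real.exp (19 * Real.sqrt (Fintype.card E)))
      (Real.one_le_exp (by positivity)) hB
    refine h.trans (ENNReal.ofReal_le_ofReal ?_)
    rw [Real.log_exp]
    rw [← hm] at hmR ⊢
    have hs1 : 1 ≤ Real.sqrt m := Real.one_le_sqrt.2 (by linarith)
    have h5 : m ^ (5 / 2 : ℝ) = m ^ 2 * Real.sqrt m := by
      rw [Real.sqrt_eq_rpow, ← Real.rpow_natCast m 2, ← Real.rpow_add (by linarith)]
      norm_num
    rw [h5]
    have : 0 ≤ m ^ 2 := sq_nonneg m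
    nlinarith [mul_le_mul_of_nonneg_left hs1 this]

end Pool.Agent.V5helper67.EA
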